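import Pool.Agent.H27.G.R_seed8.TH612.CF.Gen

set_option autoImplicit false

/-! Bounds for the swap terms in vertical strips. -/

namespace Pool.Agent.TH612.CF

open Complex Filter Topology MeasureTheory Set Asymptotics
open Pool.Agent.W182.KO

noncomputable section

variable {k : ℕ}

lemma zeta_sep {w : ℂ} (h1 : 1 / 2 ≤ w.re) {δ : ℝ} (hδ : 0 < δ) (h2 : δ ≤ ‖w - 1‖) :
    ‖riemannZeta w‖ ≤ 3 * (‖w‖ + 1) ^ 2 / δ := by
  have hne : w ≠ 1 := by
    rintro rfl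
    rw [sub_self, norm_zero] at h2
    linarith
  have h3 := H306R2.zeta_eq_pos (s := w) (by linarith) hne
  have h4 := H306R2.Zt_norm_le (s := w) h1
  rw [← h3, norm_mul] at h4
  rw [le_div_iff₀ hδ]
  calc ‖riemannZeta w‖ * δ ≤ ‖riemannZeta w‖ * ‖w - 1‖ := by gcongr
    _ = ‖w - 1‖ * ‖riemannZeta w‖ := mul_comm _ _
    _ ≤ _ := h4

/-- the exponent of `t` -/
def ee (v : Fin k ⊕ Fin k → ℝ) (π : Equiv.Perm (Fin k ⊕ Fin k)) : ℝ :=
  (∑ j : Fin k, v (π (Sum.inl j))) - ∑ j : Fin k, v (Sum.inl j)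

lemma Xt_bd {K : ℝ} (hK : ∀ x u : ℝ, |x| ≤ 1 / 4 → ‖chi (1 / 2 + (x + u * I))‖ ≤ K * (1 + |u|) ^ (-x))
    (hK1 : 1 ≤ K) {g v : Fin k ⊕ Fin k → ℝ} (hv : Sgn v) {s : ℂ} (hs : |s.re - 1 / 2| ≤ 1 / 4) {t : ℝ}
    (ht : 0 ≤ t) (i : Fin k ⊕ Fin k) :
    ‖Xt t (LR g v s i)‖ ≤ K * ((1 + |g i|) * (1 + |s.im|)) * (1 + t) ^ (-(v i * (s.re - 1 / 2))) ∧
    ‖(Xt t (LR g v s i))⁻¹‖ ≤ K * ((1 + |g i|) * (1 + |s.im|)) * (1 + t) ^ (v i * (s.re - 1 / 2)) := by
  set ρ : ℝ := v i * (s.re - 1 / 2) with hρ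
  have hρ1 : |ρ| ≤ 1 / 4 := by rw [hρ, abs_mul, hv.abs, one_mul]; exact hs
  set u : ℝ := t + (g i + v i * s.im) with hu
  have hx : 1 + |g i + v i * s.im| ≤ (1 + |g i|) * (1 + |s.im|) := by
    have h1 := abs_add_le (g i) (v i * s.im)
    rw [abs_mul, hv.abs, one_mul] at h1
    have := mul_nonneg (abs_nonneg (g i)) (abs_nonneg s.im)
    nlinarith
  have ht' : |t| = t := abs_of_nonneg ht
  have hK0 : 0 ≤ K := by linarith
  have e0 : LR g v s i = (((g i + v i * s.im : ℝ)) : ℂ) + ((-ρ : ℝ) : ℂ) * I := by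
    rw [← Complex.re_add_im (LR g v s i), LR_re, LR_im, hρ]
  have e1 : I * t + I * LR g v s i = ((ρ : ℝ) : ℂ) + (u : ℂ) * I := by
    rw [e0, hu]
    push_cast
    linear_combination (-(ρ : ℂ)) * I_sq
  constructor
  · have h1 := hK ρ u hρ1
    unfold Xt
    rw [e1]
    have h2 := peetre_pow (t := t) (x := g i + v i * s.im) (r := -ρ) (by rw [abs_neg]; linarith)
    rw [← hu, ht'] at h2
    calc _ ≤ K * (1 + |u|) ^ (-ρ) := h1
      _ ≤ K * ((1 + |g i + v i * s.im|) * (1 + t) ^ (-ρ)) := by gcongr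
      _ ≤ K * (((1 + |g i|) * (1 + |s.im|)) * (1 + t) ^ (-ρ)) := by gcongr
      _ = _ := by ring
  · have h1 := hK (-ρ) (-u) (by rw [abs_neg]; exact hρ1)
    rw [Xt_inv (by rw [LR_im, abs_neg, ← hρ]; linarith)]
    have e2 : 1 / 2 - I * t - I * LR g v s i = 1 / 2 + (((-ρ : ℝ) : ℂ) + ((-u : ℝ) : ℂ) * I) := by
      push_cast
      linear_combination (-1 : ℂ) * e1
    rw [e2]
    have h2 := peetre_pow (t := t) (x := g i + v i * s.im) (r := ρ) (by linarith)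
    rw [← hu, ht'] at h2
    rw [abs_neg, neg_neg] at h1
    calc _ ≤ K * (1 + |u|) ^ ρ := h1
      _ ≤ K * ((1 + |g i + v i * s.im|) * (1 + t) ^ ρ) := by gcongr
      _ ≤ K * (((1 + |g i|) * (1 + |s.im|)) * (1 + t) ^ ρ) := by gcongr
      _ = _ := by ring

lemma GG_bd {g v : Fin k ⊕ Fin k → ℝ} (hv : Sgn v) : ∃ K : ℝ, 1 ≤ K ∧
    ∀ (π : Equiv.Perm (Fin k ⊕ Fin k)) (s : ℂ) (t : ℝ), |s.re - 1 / 2| ≤ 1 / 4 → 0 ≤ t →
      ‖GG t (LR g v s) π‖ ≤ K * (1 + |s.im|) ^ (2 * k) * (1 + t) ^ (ee v π * (s.re - 1 / 2)) := by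
  obtain ⟨K, hK1, hK⟩ := chi_le
  set A : ℝ := K * (1 + ∑ i, |g i|) with hA
  have hs0 : 0 ≤ ∑ i, |g i| := Finset.sum_nonneg fun i _ => abs_nonneg _
  have hA1 : 1 ≤ A := by rw [hA]; nlinarith
  refine ⟨A ^ (2 * k), one_le_pow₀ hA1, fun π s t hs ht => ?_⟩
  have hKA : ∀ i, K * ((1 + |g i|) * (1 + |s.im|)) ≤ A * (1 + |s.im|) := by
    intro i
    have h1 : |g i| ≤ ∑ i, |g i| :=
      Finset.single_le_sum (f := fun i => |g i|) (fun j _ => abs_nonneg _) (Finset.mem_univ i)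
    rw [hA]
    have hK0 : 0 ≤ K := by linarith
    calc _ = K * (1 + |g i|) * (1 + |s.im|) := by ring
      _ ≤ _ := by gcongr
  have h1t : 0 < 1 + t := by linarith
  clear_value A
  have him : ∀ i, |(LR g v s i).im| < 1 / 2 := fun i => by
    rw [LR_im_abs hv]; linarith
  rw [GG_eq t him, norm_mul, norm_prod, norm_prod]
  have f1 : ∏ j : Fin k, ‖Xt t (LR g v s (Sum.inl j))‖ ≤
      ∏ j : Fin k, (A * (1 + |s.im|) * (1 + t) ^ (-(v (Sum.inl j) * (s.re - 1 / 2)))) := by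
    refine Finset.prod_le_prod (fun _ _ => norm_nonneg _) fun j _ => ?_
    refine (Xt_bd hK hK1 hv hs ht (Sum.inl j)).1.trans ?_
    have := hKA (Sum.inl j)
    gcongr
  have f2 : ∏ j : Fin k, ‖(Xt t (LR g v s (π (Sum.inl j))))⁻¹‖ ≤
      ∏ j : Fin k, (A * (1 + |s.im|) * (1 + t) ^ (v (π (Sum.inl j)) * (s.re - 1 / 2))) := by
    refine Finset.prod_le_prod (fun _ _ => norm_nonneg _) fun j _ => ?_
    refine (Xt_bd hK hK1 hv hs ht (π (Sum.inl j))).2.trans ?_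
    have := hKA (π (Sum.inl j))
    gcongr
  have hA0 : 0 ≤ A := by linarith
  refine (mul_le_mul f1 f2 (Finset.prod_nonneg fun _ _ => norm_nonneg _)
    (Finset.prod_nonneg fun _ _ => by positivity)).trans (le_of_eq ?_)
  simp only [Finset.prod_mul_distrib, Finset.prod_const, Finset.card_univ, Fintype.card_fin]
  rw [← Real.rpow_sum_of_pos h1t, ← Real.rpow_sum_of_pos h1t]
  have e : ee v π * (s.re - 1 / 2) = (∑ j : Fin k, -(v (Sum.inl j) * (s.re - 1 / 2))) +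
      ∑ j : Fin k, v (π (Sum.inl j)) * (s.re - 1 / 2) := by
    unfold ee
    rw [Finset.sum_neg_distrib, ← Finset.sum_mul, ← Finset.sum_mul]
    ring
  rw [e, Real.rpow_add h1t, two_mul, pow_add, pow_add]
  ring

lemma zab_bd {g v : Fin k ⊕ Fin k → ℝ} (hv : Sgn v) {c : ℝ} (hc : c < 1 / 4) {δ : ℝ} (hδ : 0 < δ) :
    ∃ K : ℝ, 1 ≤ K ∧ ∀ (π : Equiv.Perm (Fin k ⊕ Fin k)) (s : ℂ), |s.re - 1 / 2| ≤ c →
      (∀ j l, δ ≤ ‖LR g v s (π (Sum.inl j)) - LR g v s (π (Sum.inr l))‖) →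
      ‖zab (fun j => LR g v s (π (Sum.inl j))) (fun j => LR g v s (π (Sum.inr j)))‖ ≤
        K * (1 + |s.im|) ^ (2 * k ^ 2) := by
  set A : ℝ := 3 + 2 * ∑ i, |g i| with hA
  have hs0 : 0 ≤ ∑ i, |g i| := Finset.sum_nonneg fun i _ => abs_nonneg _
  have hA1 : 1 ≤ A := by rw [hA]; linarith
  set K : ℝ := BF k c * (3 * A ^ 2 / δ) ^ (k ^ 2) with hK
  refine ⟨max K 1, le_max_right _ _, fun π s hs hsep => ?_⟩
  have him : ∀ i, |(LR g v s i).im| ≤ c := fun i => by rw [LR_im_abs hv]; exact hs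
  unfold zab
  rw [norm_mul, norm_prod]
  have h1 := FH_le hc (a := fun j => LR g v s (π (Sum.inl j))) (b := fun j => LR g v s (π (Sum.inr j)))
    (fun j => ⟨him _, him _⟩)
  have hfac : ∀ j l, ‖riemannZeta (1 + I * LR g v s (π (Sum.inl j)) - I * LR g v s (π (Sum.inr l)))‖ ≤
      3 * A ^ 2 / δ * (1 + |s.im|) ^ 2 := by
    intro j l
    set w : ℂ := 1 + I * LR g v s (π (Sum.inl j)) - I * LR g v s (π (Sum.inr l)) with hw
    have e1 : w - 1 = I * (LR g v s (π (Sum.inl j)) - LR g v s (π (Sum.inr l))) := by rw [hw]; ring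
    have h2 : δ ≤ ‖w - 1‖ := by
      rw [e1, norm_mul, norm_I, one_mul]
      exact hsep j l
    have hre : 1 / 2 ≤ w.re := by
      have e2 : w.re = 1 - (LR g v s (π (Sum.inl j))).im + (LR g v s (π (Sum.inr l))).im := by
        rw [hw]; simp; ring
      have a1 := abs_le.1 (him (π (Sum.inl j)))
      have a2 := abs_le.1 (him (π (Sum.inr l)))
      rw [e2]
      linarith
    have h3 := zeta_sep hre hδ h2
    have hn : ∀ i, ‖LR g v s i‖ ≤ |g i| + |s.im| + 1 / 4 := by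
      intro i
      refine (Complex.norm_le_abs_re_add_abs_im _).trans ?_
      have a1 := him i
      have a2 : |(LR g v s i).re| ≤ |g i| + |s.im| := by
        rw [LR_re]
        refine (abs_add_le _ _).trans ?_
        rw [abs_mul, hv.abs, one_mul]
      linarith
    have hg : |g (π (Sum.inl j))| + |g (π (Sum.inr l))| ≤ ∑ i, |g i| := by
      have hne := inl_ne_inr π j l
      calc _ = ∑ i ∈ {π (Sum.inl j), π (Sum.inr l)}, |g i| := (Finset.sum_pair hne).symm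
        _ ≤ _ := Finset.sum_le_sum_of_subset_of_nonneg (Finset.subset_univ _) fun _ _ _ => abs_nonneg _
    have hwn : ‖w‖ + 1 ≤ A * (1 + |s.im|) := by
      have b1 := norm_sub_le (1 + I * LR g v s (π (Sum.inl j))) (I * LR g v s (π (Sum.inr l)))
      have b2 := norm_add_le (1:ℂ) (I * LR g v s (π (Sum.inl j)))
      rw [norm_mul, norm_I, one_mul] at b1 b2
      rw [norm_one] at b2
      have b3 := hn (π (Sum.inl j))
      have b4 := hn (π (Sum.inr l))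
      have b5 := abs_nonneg s.im
      have b6 := mul_nonneg hs0 b5
      rw [hA]
      nlinarith
    refine h3.trans ?_
    calc 3 * (‖w‖ + 1) ^ 2 / δ ≤ 3 * (A * (1 + |s.im|)) ^ 2 / δ := by gcongr
      _ = _ := by ring
  have h4 : ∏ j : Fin k, ‖∏ l : Fin k, riemannZeta (1 + I * LR g v s (π (Sum.inl j)) -
      I * LR g v s (π (Sum.inr l)))‖ ≤ (3 * A ^ 2 / δ * (1 + |s.im|) ^ 2) ^ (k ^ 2) := by
    calc _ ≤ ∏ _j : Fin k, (3 * A ^ 2 / δ * (1 + |s.im|) ^ 2) ^ k := by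
          refine Finset.prod_le_prod (fun _ _ => norm_nonneg _) fun j _ => ?_
          rw [norm_prod]
          refine (Finset.prod_le_prod (fun _ _ => norm_nonneg _) fun l _ => hfac j l).trans ?_
          rw [Finset.prod_const, Finset.card_univ, Fintype.card_fin]
      _ = _ := by
          rw [Finset.prod_const, Finset.card_univ, Fintype.card_fin, ← pow_mul, sq k]
  have hBF : 0 ≤ BF k c := (Real.exp_pos _).le
  calc _ ≤ BF k c * (3 * A ^ 2 / δ * (1 + |s.im|) ^ 2) ^ (k ^ 2) := by gcongr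
    _ = K * (1 + |s.im|) ^ (2 * k ^ 2) := by rw [hK, mul_pow, ← pow_mul]; ring
    _ ≤ _ := by
        gcongr
        exact le_max_left _ _

/-- bound for a swap term -/
theorem Rt_bd {g v : Fin k ⊕ Fin k → ℝ} (hv : Sgn v) {c : ℝ} (hc : c < 1 / 4) {δ : ℝ} (hδ : 0 < δ) :
    ∃ (K : ℝ) (B : ℕ), 1 ≤ K ∧ ∀ (π : Equiv.Perm (Fin k ⊕ Fin k)) (s : ℂ) (t : ℝ), |s.re - 1 / 2| ≤ c →
      0 ≤ t → (∀ j l, δ ≤ ‖LR g v s (π (Sum.inl j)) - LR g v s (π (Sum.inr l))‖) →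
      ‖Rt t (LR g v s) π‖ ≤ K * (1 + |s.im|) ^ B * (1 + t) ^ (ee v π * (s.re - 1 / 2)) := by
  obtain ⟨K1, hK1, h1⟩ := GG_bd (g := g) hv
  obtain ⟨K2, hK2, h2⟩ := zab_bd (g := g) hv hc hδ
  refine ⟨K1 * K2, 2 * k + 2 * k ^ 2, by nlinarith, fun π s t hs ht hsep => ?_⟩
  have g1 := h1 π s t (hs.trans hc.le) ht
  have g2 := h2 π s hs hsep
  unfold Rt
  rw [norm_mul]
  have : 0 < 1 + t := by linarith
  have hK10 : 0 ≤ K1 := by linarith
  calc _ ≤ (K1 * (1 + |s.im|) ^ (2 * k) * (1 + t) ^ (ee v π * (s.re - 1 / 2))) *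
        (K2 * (1 + |s.im|) ^ (2 * k ^ 2)) := by gcongr
    _ = _ := by rw [pow_add]; ring

/-- separation on a line off the centre -/
lemma sep_line {g v : Fin k ⊕ Fin k → ℝ} (hv : Sgn v) (hi : CI g v) {r : ℝ} (hr : 0 < r) :
    ∃ δ : ℝ, 0 < δ ∧ ∀ (s : ℂ), |s.re - 1 / 2| = r → ∀ p q, p ≠ q →
      δ ≤ ‖LR g v s p - LR g v s q‖ := by
  have key : ∀ x : (Fin k ⊕ Fin k) × (Fin k ⊕ Fin k), ∃ δ : ℝ, 0 < δ ∧ ∀ (s : ℂ),
      |s.re - 1 / 2| = r → x.1 ≠ x.2 → δ ≤ ‖LR g v s x.1 - LR g v s x.2‖ := by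
    rintro ⟨p, q⟩
    by_cases hpq : p = q
    · exact ⟨1, one_pos, fun s _ h => absurd hpq h⟩
    by_cases hvv : v p = v q
    · have hg : g p ≠ g q := fun h => hpq (hi p q hvv h)
      refine ⟨|g p - g q|, abs_pos.2 (sub_ne_zero.2 hg), fun s _ _ => ?_⟩
      have e : LR g v s p - LR g v s q = ((g p - g q : ℝ) : ℂ) := by
        rw [LR_apply, LR_apply, hvv]; push_cast; ring
      simp only
      rw [e, Complex.norm_real, Real.norm_eq_abs]
    · refine ⟨2 * r, by linarith, fun s hs _ => ?_⟩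
      refine le_trans ?_ (Complex.abs_im_le_norm _)
      simp only
      rw [sub_im, LR_im, LR_im]
      have e : -(v p * (s.re - 1 / 2)) - -(v q * (s.re - 1 / 2)) = -((v p - v q) * (s.re - 1 / 2)) := by
        ring
      rw [e, abs_neg, abs_mul, hs]
      have : |v p - v q| = 2 := by
        rcases opp_cases hv hvv with ⟨h1, h2⟩ | ⟨h1, h2⟩ <;> rw [h1, h2] <;> norm_num
      rw [this]
  choose δ hδ h using key
  obtain ⟨m, hm0, hm⟩ : ∃ m : ℝ, 0 < m ∧ ∀ x, m ≤ δ x := by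
    rcases isEmpty_or_nonempty ((Fin k ⊕ Fin k) × (Fin k ⊕ Fin k)) with he | he
    · exact ⟨1, one_pos, fun x => (he.false x).elim⟩
    · obtain ⟨x0, hx0⟩ := Finite.exists_min δ
      exact ⟨δ x0, hδ x0, hx0⟩
  exact ⟨m, hm0, fun s hs p q hpq => (hm (p, q)).trans (h (p, q) s hs hpq)⟩

/-- separation far from the real axis -/
lemma sep_far {g v : Fin k ⊕ Fin k → ℝ} (hv : Sgn v) (hi : CI g v) :
    ∃ δ Y : ℝ, 0 < δ ∧ 0 < Y ∧ ∀ (s : ℂ), Y ≤ |s.im| → ∀ p q, p ≠ q →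
      δ ≤ ‖LR g v s p - LR g v s q‖ := by
  have key : ∀ x : (Fin k ⊕ Fin k) × (Fin k ⊕ Fin k), ∃ δ : ℝ, 0 < δ ∧ ∀ (s : ℂ),
      1 + ∑ i, |g i| ≤ |s.im| → x.1 ≠ x.2 → δ ≤ ‖LR g v s x.1 - LR g v s x.2‖ := by
    rintro ⟨p, q⟩
    by_cases hpq : p = q
    · exact ⟨1, one_pos, fun s _ h => absurd hpq h⟩
    by_cases hvv : v p = v q
    · have hg : g p ≠ g q := fun h => hpq (hi p q hvv h)
      refine ⟨|g p - g q|, abs_pos.2 (sub_ne_zero.2 hg), fun s _ _ => ?_⟩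
      have e : LR g v s p - LR g v s q = ((g p - g q : ℝ) : ℂ) := by
        rw [LR_apply, LR_apply, hvv]; push_cast; ring
      simp only
      rw [e, Complex.norm_real, Real.norm_eq_abs]
    · refine ⟨1, one_pos, fun s hs _ => ?_⟩
      refine le_trans ?_ (Complex.abs_re_le_norm _)
      simp only
      rw [sub_re, LR_re, LR_re]
      have e : g p + v p * s.im - (g q + v q * s.im) = (v p - v q) * s.im - -(g p - g q) := by ring
      have h2 : |v p - v q| = 2 := by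
        rcases opp_cases hv hvv with ⟨h1, h2⟩ | ⟨h1, h2⟩ <;> rw [h1, h2] <;> norm_num
      have h3 : |(v p - v q) * s.im| = 2 * |s.im| := by rw [abs_mul, h2]
      have h4 := abs_sub_abs_le_abs_sub ((v p - v q) * s.im) (-(g p - g q))
      rw [e]
      rw [h3, abs_neg] at h4
      have h5 : |g p - g q| ≤ ∑ i, |g i| := by
        have hab : |g p - g q| ≤ |g p| + |g q| := abs_sub _ _
        refine hab.trans ?_
        calc _ = ∑ i ∈ {p, q}, |g i| := (Finset.sum_pair hpq).symm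
          _ ≤ _ := Finset.sum_le_sum_of_subset_of_nonneg (Finset.subset_univ _)
              fun _ _ _ => abs_nonneg _
      have h6 : 0 ≤ ∑ i, |g i| := Finset.sum_nonneg fun _ _ => abs_nonneg _
      linarith
  choose δ hδ h using key
  obtain ⟨m, hm0, hm⟩ : ∃ m : ℝ, 0 < m ∧ ∀ x, m ≤ δ x := by
    rcases isEmpty_or_nonempty ((Fin k ⊕ Fin k) × (Fin k ⊕ Fin k)) with he | he
    · exact ⟨1, one_pos, fun x => (he.false x).elim⟩
    · obtain ⟨x0, hx0⟩ := Finite.exists_min δ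
      exact ⟨δ x0, hδ x0, hx0⟩
  have h6 : 0 ≤ ∑ i, |g i| := Finset.sum_nonneg fun _ _ => abs_nonneg _
  exact ⟨m, 1 + ∑ i, |g i|, hm0, by linarith, fun s hs p q hpq =>
    (hm (p, q)).trans (h (p, q) s hs hpq)⟩

end

end Pool.Agent.TH612.CF
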