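import Pool.Agent.H27.G.R_seed8.TH612.CF.Qg

set_option autoImplicit false

/-! Combinatorics of the permutations. -/

namespace Pool.Agent.TH612.CF

open Complex Filter Topology MeasureTheory Set
open Pool.Agent.W182.KO

noncomputable section

variable {k : ℕ}

/-- the shifted product -/
def Zg (γ : Fin k ⊕ Fin k → ℝ) (t : ℝ) : ℂ :=
  ∏ j : Fin k, riemannZeta (1 / 2 + I * (t + γ (Sum.inl j))) *
    riemannZeta (1 / 2 - I * (t + γ (Sum.inr j)))

/-- the line of shifts -/
def gl (g v : Fin k ⊕ Fin k → ℝ) (y : ℝ) : Fin k ⊕ Fin k → ℝ := fun i => g i + y * v i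

lemma gl_LR (g v : Fin k ⊕ Fin k → ℝ) (y : ℝ) : (fun i => (gl g v y i : ℂ)) = LR g v (1 / 2 + y * I) := by
  funext i
  rw [LR_apply]
  unfold gl
  push_cast
  linear_combination (v i * y : ℂ) * I_sq

lemma Zg_ZM {g v : Fin k ⊕ Fin k → ℝ} {π : Equiv.Perm (Fin k ⊕ Fin k)} (hπ : Good v π) (t y : ℝ) :
    Zg (gl g v y) t = ZM (zz g π) (SL π) (1 / 2 + (y + t : ℝ) * I) *
      ZM (ww g π) (SR π) (1 / 2 + (y - t : ℝ) * I) := by
  set φ : Fin k ⊕ Fin k → ℂ := fun i => if i.isLeft = true then riemannZeta (1 / 2 + I * (t + gl g v y i))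
    else riemannZeta (1 / 2 - I * (t + gl g v y i)) with hφ
  have e1 : Zg (gl g v y) t = ∏ i, φ i := by
    unfold Zg
    rw [Fintype.prod_sum_type, Finset.prod_mul_distrib]
    rfl
  rw [e1, ← Equiv.prod_comp π φ, Fintype.prod_sum_type]
  unfold ZM SL SR
  congr 1
  · refine Finset.prod_congr rfl fun j _ => ?_
    have hv := (hπ j).1
    simp only [Finset.mem_filter, Finset.mem_univ, true_and]
    unfold zz
    have hg : (gl g v y (π (Sum.inl j)) : ℂ) = g (π (Sum.inl j)) + y := by
      unfold gl; rw [hv]; push_cast; ring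
    simp only [hφ, hg]
    rcases hh : π (Sum.inl j) with i | i
    · simp only [Sum.isLeft_inl, Sum.isRight_inl, if_true, Bool.false_eq_true, if_false]
      congr 1; push_cast; ring
    · simp only [Sum.isLeft_inr, Sum.isRight_inr, if_true, Bool.false_eq_true, if_false]
      congr 1; push_cast; ring
  · refine Finset.prod_congr rfl fun j _ => ?_
    have hv := (hπ j).2
    simp only [Finset.mem_filter, Finset.mem_univ, true_and]
    unfold ww
    have hg : (gl g v y (π (Sum.inr j)) : ℂ) = g (π (Sum.inr j)) - y := by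
      unfold gl; rw [hv]; push_cast; ring
    simp only [hφ, hg]
    rcases hh : π (Sum.inr j) with i | i
    · simp only [Sum.isLeft_inl, if_true]
      congr 1; push_cast; ring
    · simp only [Sum.isLeft_inr, Bool.false_eq_true, if_false]
      congr 1; push_cast; ring

lemma Good.sgn {v : Fin k ⊕ Fin k → ℝ} {π : Equiv.Perm (Fin k ⊕ Fin k)} (h : Good v π) : Sgn v := by
  intro i
  obtain ⟨i', rfl⟩ := π.surjective i
  rcases i' with j | j
  · exact Or.inl (h j).1
  · exact Or.inr (h j).2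

/-- number of swaps -/
def mv (v : Fin k ⊕ Fin k → ℝ) : ℕ := (Finset.univ.filter fun i => v i = 1 ∧ i.isRight = true).card

lemma card_SL {v : Fin k ⊕ Fin k → ℝ} {π : Equiv.Perm (Fin k ⊕ Fin k)} (h : Good v π) :
    (SL π).card = mv v := by
  unfold SL mv
  refine Finset.card_bij (fun j _ => π (Sum.inl j)) ?_ ?_ ?_
  · intro j hj
    simp only [Finset.mem_filter, Finset.mem_univ, true_and] at hj ⊢
    exact ⟨(h j).1, hj⟩
  · intro a _ b _ hab
    exact Sum.inl_injective (π.injective hab)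
  · intro i hi
    simp only [Finset.mem_filter, Finset.mem_univ, true_and] at hi
    obtain ⟨i', rfl⟩ := π.surjective i
    rcases i' with j | j
    · exact ⟨j, by simpa using hi.2, rfl⟩
    · exfalso
      have h1 := hi.1
      rw [(h j).2] at h1
      norm_num at h1

lemma card_good {v : Fin k ⊕ Fin k → ℝ} {π0 : Equiv.Perm (Fin k ⊕ Fin k)} (h0 : Good v π0)
    [DecidablePred (Good v)] :
    (Finset.univ.filter (Good v)).card = (Nat.factorial k) ^ 2 := by
  have h1 : Finset.univ.filter (Good v) =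
      Finset.univ.image (fun στ : Equiv.Perm (Fin k) × Equiv.Perm (Fin k) =>
        π0 * Equiv.Perm.sumCongrHom (Fin k) (Fin k) στ) := by
    ext π
    simp only [Finset.mem_filter, Finset.mem_univ, true_and, Finset.mem_image]
    constructor
    · intro hπ
      have hm : Set.MapsTo (π0⁻¹ * π) (Set.range (Sum.inl : Fin k → Fin k ⊕ Fin k))
          (Set.range Sum.inl) := by
        rintro _ ⟨j, rfl⟩
        have h2 : π0 ((π0⁻¹ * π) (Sum.inl j)) = π (Sum.inl j) := by simp
        rcases hh : (π0⁻¹ * π) (Sum.inl j) with i | i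
        · exact ⟨i, rfl⟩
        · exfalso
          rw [hh] at h2
          have h3 := (h0 i).2
          rw [h2, (hπ j).1] at h3
          norm_num at h3
      obtain ⟨στ, hστ⟩ := Equiv.Perm.mem_sumCongrHom_range_of_perm_mapsTo_inl hm
      exact ⟨στ, by rw [hστ]; simp⟩
    · rintro ⟨στ, rfl⟩ j
      constructor
      · have : (π0 * Equiv.Perm.sumCongrHom (Fin k) (Fin k) στ) (Sum.inl j) = π0 (Sum.inl (στ.1 j)) := rfl
        rw [this]; exact (h0 _).1
      · have : (π0 * Equiv.Perm.sumCongrHom (Fin k) (Fin k) στ) (Sum.inr j) = π0 (Sum.inr (στ.2 j)) := rfl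
        rw [this]; exact (h0 _).2
  rw [h1, Finset.card_image_of_injective]
  · rw [Finset.card_univ, Fintype.card_prod, Fintype.card_perm, Fintype.card_fin, sq]
  · intro a b hab
    exact Equiv.Perm.sumCongrHom_injective (mul_left_cancel hab)

lemma sum_le_of {x : Fin k → ℝ} (h : ∀ j, x j ≤ 1) {j0 : Fin k} (h0 : x j0 ≤ -1) :
    ∑ j, x j ≤ k - 2 := by
  rw [← Finset.add_sum_erase _ _ (Finset.mem_univ j0)]
  have h1 : ∑ j ∈ Finset.univ.erase j0, x j ≤ ∑ j ∈ Finset.univ.erase j0, (1:ℝ) :=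
    Finset.sum_le_sum fun j _ => h j
  rw [Finset.sum_const, Finset.card_erase_of_mem (Finset.mem_univ j0), Finset.card_univ,
    Fintype.card_fin, nsmul_eq_mul, mul_one] at h1
  have hk : 1 ≤ k := by
    have := j0.2
    omega
  rw [Nat.cast_sub hk] at h1
  push_cast at h1
  linarith

lemma sum_all {v : Fin k ⊕ Fin k → ℝ} {π0 : Equiv.Perm (Fin k ⊕ Fin k)} (h0 : Good v π0) :
    ∑ i, v i = 0 := by
  rw [← Equiv.sum_comp π0 v, Fintype.sum_sum_type]
  simp only [fun j => (h0 j).1, fun j => (h0 j).2]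
  simp

lemma sum_left {v : Fin k ⊕ Fin k → ℝ} {π0 : Equiv.Perm (Fin k ⊕ Fin k)} (h0 : Good v π0) :
    ∑ j, v (Sum.inl j) = k - 2 * (mv v : ℝ) := by
  have e1 : ∑ j, v (Sum.inl j) = ∑ i : Fin k ⊕ Fin k, if i.isLeft = true then v i else 0 := by
    rw [Fintype.sum_sum_type]
    simp
  rw [e1, ← Equiv.sum_comp π0 (fun i : Fin k ⊕ Fin k => if i.isLeft = true then v i else 0),
    Fintype.sum_sum_type]
  simp only [fun j => (h0 j).1, fun j => (h0 j).2]
  have e2 : (∑ j : Fin k, if (π0 (Sum.inr j)).isLeft = true then (-1:ℝ) else 0) = -(mv v : ℝ) := by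
    have : ∀ j : Fin k, (if (π0 (Sum.inr j)).isLeft = true then (-1:ℝ) else 0) =
        -(if (π0 (Sum.inr j)).isLeft = true then (1:ℝ) else 0) := by
      intro j; split_ifs <;> simp
    simp only [this]
    rw [Finset.sum_neg_distrib, Finset.sum_boole, ← card_SL h0, card_SL_SR]
    rfl
  have e3 : (∑ j : Fin k, if (π0 (Sum.inl j)).isLeft = true then (1:ℝ) else 0) = k - (mv v : ℝ) := by
    have : ∀ j : Fin k, (if (π0 (Sum.inl j)).isLeft = true then (1:ℝ) else 0) =
        1 - (if (π0 (Sum.inl j)).isRight = true then (1:ℝ) else 0) := by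
      intro j
      rcases π0 (Sum.inl j) with i | i <;> simp
    simp only [this]
    rw [Finset.sum_sub_distrib, Finset.sum_boole, ← card_SL h0]
    simp [SL]
  rw [e2, e3]
  ring

lemma ee_bad {v : Fin k ⊕ Fin k → ℝ} {π0 : Equiv.Perm (Fin k ⊕ Fin k)} (h0 : Good v π0)
    {π : Equiv.Perm (Fin k ⊕ Fin k)} (h : ¬ Good v π) : ee v π ≤ 2 * (mv v : ℝ) - 2 := by
  have hv := h0.sgn
  have hle : ∀ i, v i ≤ 1 := fun i => by rcases hv i with h | h <;> rw [h]; norm_num
  have hge : ∀ i, -v i ≤ 1 := fun i => by rcases hv i with h | h <;> rw [h] <;> norm_num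
  have key : ∑ j, v (π (Sum.inl j)) ≤ k - 2 := by
    unfold Good at h
    push Not at h
    obtain ⟨j, hj⟩ := h
    rcases hv (π (Sum.inl j)) with h1 | h1
    · have h2 : v (π (Sum.inr j)) = 1 := by
        rcases hv (π (Sum.inr j)) with h2 | h2
        · exact h2
        · exact absurd h2 (hj h1)
      have h3 := sum_le_of (x := fun j => -v (π (Sum.inr j))) (fun j => hge _) (j0 := j) (by rw [h2])
      rw [Finset.sum_neg_distrib] at h3
      have h4 := sum_all h0
      rw [← Equiv.sum_comp π v, Fintype.sum_sum_type] at h4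
      linarith
    · exact sum_le_of (x := fun j => v (π (Sum.inl j))) (fun j => hle _) (j0 := j) (by rw [h1])
  unfold ee
  rw [sum_left h0]
  linarith

/-- existence of a good permutation -/
lemma exists_good {A : Finset (Fin k ⊕ Fin k)} (hA : A.card = k) :
    ∃ π : Equiv.Perm (Fin k ⊕ Fin k), ∀ j, π (Sum.inl j) ∈ A ∧ π (Sum.inr j) ∉ A := by
  have c1 : Fintype.card {i // i ∈ A} = k := by simpa using hA
  have c2 : Fintype.card {i // ¬ i ∈ A} = k := by
    rw [Fintype.card_subtype_compl]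
    simp [hA]
  let e1 : Fin k ≃ {i // i ∈ A} := (Fintype.equivFinOfCardEq c1).symm
  let e2 : Fin k ≃ {i // ¬ i ∈ A} := (Fintype.equivFinOfCardEq c2).symm
  refine ⟨(e1.sumCongr e2).trans (Equiv.sumCompl (· ∈ A)), fun j => ⟨?_, ?_⟩⟩
  · have : ((e1.sumCongr e2).trans (Equiv.sumCompl (· ∈ A))) (Sum.inl j) = (e1 j).1 := rfl
    rw [this]; exact (e1 j).2
  · have : ((e1.sumCongr e2).trans (Equiv.sumCompl (· ∈ A))) (Sum.inr j) = (e2 j).1 := rfl
    rw [this]; exact (e2 j).2

end

end Pool.Agent.TH612.CF
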