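import Pool.Agent.H27.G.R_seed8.TH612.CF.Qg

set_option autoImplicit false

/-! Fubini for the sum of the swap terms on the critical line. -/

namespace Pool.Agent.TH612.CF

open Complex Filter Topology MeasureTheory Set
open scoped ContDiff
open Pool.Agent.W182.KO

noncomputable section

variable {k : ℕ}

/-- product integrability, for functions continuous off a null set of `y` -/
lemma prod_int_ae {f : ℝ → ℝ → ℂ} {N : Set ℝ} (hNc : IsClosed N) (hN0 : volume N = 0)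
    (hc : ContinuousOn (fun p : ℝ × ℝ => f p.1 p.2) {p | p.2 ∉ N}) {T B : ℝ}
    (hB : ∀ t ∈ Ioc 0 T, ∀ y, y ∉ N → ‖f t y‖ ≤ B * ((1 + |y|) ^ 2)⁻¹) :
    Integrable (fun p : ℝ × ℝ => f p.1 p.2) ((volume.restrict (Ioc 0 T)).prod volume) := by
  have h1 : Integrable (fun p : ℝ × ℝ => B * ((1 + |p.2|) ^ 2)⁻¹)
      ((volume.restrict (Ioc 0 T)).prod volume) := by
    have : Integrable (fun _ : ℝ => B) (volume.restrict (Ioc 0 T)) := by
      refine integrable_const_iff.2 (Or.inr ?_)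
      exact ⟨by simp⟩
    exact this.mul_prod one_add_inv_sq_int
  have hopen : IsOpen {p : ℝ × ℝ | p.2 ∉ N} := hNc.isOpen_compl.preimage continuous_snd
  have hae : ∀ᵐ p ∂((volume.restrict (Ioc 0 T)).prod (volume : Measure ℝ)), p.2 ∉ N := by
    have h2 : ∀ᵐ y : ℝ, y ∉ N := by
      rw [ae_iff]
      simpa using hN0
    exact Measure.quasiMeasurePreserving_snd.ae h2
  have hmeas : AEStronglyMeasurable (fun p : ℝ × ℝ => f p.1 p.2)
      ((volume.restrict (Ioc 0 T)).prod volume) := by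
    have h3 := hc.aestronglyMeasurable (μ := (volume.restrict (Ioc 0 T)).prod volume) hopen.measurableSet
    have h4 : ((volume.restrict (Ioc 0 T)).prod (volume : Measure ℝ)).restrict {p | p.2 ∉ N} =
        (volume.restrict (Ioc 0 T)).prod volume := Measure.restrict_eq_self_of_ae_mem hae
    rwa [h4] at h3
  refine h1.mono' hmeas ?_
  have h2 : ∀ᵐ p ∂((volume.restrict (Ioc (0:ℝ) T)).prod (volume : Measure ℝ)), p.1 ∈ Ioc 0 T := by
    have : ∀ᵐ t ∂(volume.restrict (Ioc (0:ℝ) T)), t ∈ Ioc 0 T := ae_restrict_mem measurableSet_Ioc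
    exact Measure.quasiMeasurePreserving_fst.ae this
  filter_upwards [h2, hae] with p hp1 hp2
  exact hB p.1 hp1 p.2 hp2

/-- the exceptional set of `y` -/
def Ny (g v : Fin k ⊕ Fin k → ℝ) : Set ℝ := {y : ℝ | ((1 / 2 : ℂ) + y * I) ∈ SS g v}

lemma Ny_finite {g v : Fin k ⊕ Fin k → ℝ} (hv : Sgn v) : (Ny g v).Finite := by
  refine Set.Finite.preimage ?_ (SS_finite hv)
  intro a _ b _ h
  have := congrArg Complex.im h
  simpa using this

lemma Qs_line_cont {g v : Fin k ⊕ Fin k → ℝ} (hv : Sgn v) (hi : CI g v) {ξ1 : ℝ} {ψ : ℝ → ℂ}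
    (h : TF ξ1 ψ) (L : ℝ) : ContinuousOn (fun p : ℝ × ℝ => P ψ (L * p.2 * I) *
      Qs p.1 (LR g v (1 / 2 + p.2 * I))) {p | p.2 ∉ Ny g v} := by
  have hPc : Continuous (P ψ) := (P_diff h).continuous
  have hopen : IsOpen {p : ℝ × ℝ | p.2 ∉ Ny g v} :=
    (Ny_finite (g := g) hv).isClosed.isOpen_compl.preimage continuous_snd
  refine (hPc.comp (by fun_prop)).continuousOn.mul ?_
  unfold Qs
  refine continuousOn_finsetSum _ fun π _ => ?_
  have hcont : ∀ i, Continuous (fun x : ℝ × ℝ => LR g v (1 / 2 + x.2 * I) i) := by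
    intro i
    simp only [LR_apply]
    fun_prop
  refine Rt_cont (c := 1 / 8) (T := fun x : ℝ × ℝ => x.1) (Γ := fun x => LR g v (1 / 2 + x.2 * I))
    hopen (by norm_num) (by fun_prop) (fun i => (hcont i).continuousOn) (fun x _ i => ?_) π
    (fun x hx j l => ?_)
  · rw [LR_im_abs hv]
    simp
  · exact LR_inj hi hx (inl_ne_inr π j l)

theorem Q_prodint {g v : Fin k ⊕ Fin k → ℝ} (hv : Sgn v) (hi : CI g v) {ξ1 : ℝ} {ψ : ℝ → ℂ}
    (h : TF ξ1 ψ) {L : ℝ} (hL : 1 ≤ L) (T : ℝ) :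
    Integrable (fun p : ℝ × ℝ => P ψ (L * p.2 * I) * Qs p.1 (LR g v (1 / 2 + p.2 * I)))
      ((volume.restrict (Ioc 0 T)).prod volume) := by
  obtain ⟨K, Y, B, hK, hY, hfar⟩ := Qs_far (g := g) hv hi (c := 1 / 8) (by norm_num)
  obtain ⟨C0, hC0⟩ := Q_bdd hv hi (c := 1 / 8) (r := 1 / 16) (by norm_num) (by norm_num) (by norm_num) T Y
  obtain ⟨CN, hCN, hP⟩ := P_line h B
  set A : ℝ := |C0| + K * (1 + |T|) ^ k with hA
  have hA1 : 0 ≤ K * (1 + |T|) ^ k := by positivity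
  have hA0 : 0 ≤ A := by have := abs_nonneg C0; linarith
  refine prod_int_ae (f := fun t y => P ψ (L * y * I) * Qs t (LR g v (1 / 2 + y * I)))
    (N := Ny g v) (B := CN * A) (Ny_finite hv).isClosed ((Ny_finite hv).measure_zero _)
    (Qs_line_cont hv hi h L) ?_
  intro t ht y hy
  have hT0 : 0 ≤ T := ht.1.le.trans ht.2
  have e1 : ((1 / 2 : ℂ) + y * I).re = 1 / 2 := by simp
  have e2 : ((1 / 2 : ℂ) + y * I).im = y := by simp
  have hq : ‖Qs t (LR g v (1 / 2 + y * I))‖ ≤ A * (1 + |y|) ^ B := by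
    have h1B : (1:ℝ) ≤ (1 + |y|) ^ B := one_le_pow₀ (by have := abs_nonneg y; linarith)
    rcases le_total |y| Y with hyY | hyY
    · have h3 := hC0 t ⟨ht.1.le, ht.2⟩ (1 / 2 + y * I) (by rw [e1]; norm_num) (by rw [e2]; exact hyY) hy
      calc _ ≤ C0 := h3
        _ ≤ A * 1 := by
            have := le_abs_self C0
            linarith
        _ ≤ _ := by gcongr
    · have h4 := (hfar (1 / 2 + y * I) t (by rw [e1]; norm_num) ht.1.le (by rw [e2]; exact hyY)).2
      rw [e2] at h4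
      have hC := abs_nonneg C0
      calc _ ≤ K * (1 + |y|) ^ B * (1 + t) ^ k := h4
        _ = (K * (1 + t) ^ k) * (1 + |y|) ^ B := by ring
        _ ≤ (K * (1 + |T|) ^ k) * (1 + |y|) ^ B := by
            have h5 : t ≤ |T| := ht.2.trans (le_abs_self T)
            have h6 : 0 ≤ 1 + t := by linarith [ht.1]
            have h7 : (1 + t) ^ k ≤ (1 + |T|) ^ k := by gcongr
            have hK0 : 0 ≤ K := by linarith
            gcongr
        _ ≤ _ := by gcongr; linarith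
  have hp := hP L (1 / 2 + y * I) hL (by rw [e1])
  rw [e1, e2, sub_self, mul_zero, mul_zero, Real.exp_zero, mul_one] at hp
  have e3 : (L:ℂ) * ((1 / 2 + y * I) - 1 / 2) = L * y * I := by ring
  rw [e3] at hp
  rw [norm_mul]
  have hy0 : 0 < 1 + |y| := by positivity
  calc _ ≤ (CN / (1 + |y|) ^ (2 + B)) * (A * (1 + |y|) ^ B) := by gcongr
    _ = _ := by rw [pow_add]; field_simp

/-- Fubini for the swap terms -/
theorem Q_swap {g v : Fin k ⊕ Fin k → ℝ} (hv : Sgn v) (hi : CI g v) {ξ1 : ℝ} {ψ : ℝ → ℂ}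
    (h : TF ξ1 ψ) {c0 : ℝ} (hc0 : 0 < c0) (hc : c0 < 1 / 4) {L : ℝ} (hL : 1 ≤ L) {T : ℝ} (hT : 0 ≤ T) :
    ∫ y : ℝ, P ψ (L * y * I) * (∫ t in (0:ℝ)..T, Qs t (LR g v (1 / 2 + y * I))) =
      ∑ π : Equiv.Perm (Fin k ⊕ Fin k), ∫ t in (0:ℝ)..T, JR ψ g v c0 L π t := by
  have hs := integral_integral_swap (f := fun (t y : ℝ) => P ψ (L * y * I) *
      Qs t (LR g v (1 / 2 + y * I))) (Q_prodint hv hi h hL T)
  have e1 : ∫ y : ℝ, P ψ (L * y * I) * (∫ t in (0:ℝ)..T, Qs t (LR g v (1 / 2 + y * I))) =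
      ∫ y : ℝ, ∫ t in Ioc 0 T, P ψ (L * y * I) * Qs t (LR g v (1 / 2 + y * I)) := by
    congr 1; funext y
    rw [intervalIntegral.integral_of_le hT, integral_const_mul]
  rw [e1, ← hs]
  have e2 : ∫ t in Ioc 0 T, ∫ y : ℝ, P ψ (L * y * I) * Qs t (LR g v (1 / 2 + y * I)) =
      ∫ t in Ioc 0 T, ∑ π : Equiv.Perm (Fin k ⊕ Fin k), JR ψ g v c0 L π t := by
    refine setIntegral_congr_fun measurableSet_Ioc fun t ht => ?_
    exact Q_split hv hi h hc0 hc hL ht.1.le
  rw [e2, integral_finsetSum]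
  · refine Finset.sum_congr rfl fun π _ => ?_
    rw [intervalIntegral.integral_of_le hT]
  · intro π _
    have := JR_int hv hi h hc0 hc hL π hT
    rwa [intervalIntegrable_iff_integrableOn_Ioc_of_le hT] at this

end

end Pool.Agent.TH612.CF
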