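import Pool.Agent.H27.G.R_seed8.TH612.CF.Zp

set_option autoImplicit false

/-! The main swap term in terms of the diagonal model. -/

namespace Pool.Agent.TH612.CF

open Complex Filter Topology MeasureTheory Set
open scoped ContDiff
open Pool.Agent.W182.KO

noncomputable section

variable {k : ℕ}

lemma Dz_term (z w : Fin k → ℝ) {δ : ℝ} (hδ : 0 < δ) : ∃ D : ℝ, 0 ≤ D ∧ ∀ (n : ℕ) (s : ℂ),
    1 / 2 + δ ≤ s.re → ‖(tau (fun j => -(z j * I)) n * (n : ℂ) ^ (-s)) *
      (tau (fun j => -(w j * I)) n * (n : ℂ) ^ (-s))‖ ≤ D * (n : ℝ) ^ (-(1 + δ)) := by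
  obtain ⟨D, hD, hd⟩ := tau_ptw k (κ := δ / 2) (by positivity)
  refine ⟨D * D, by positivity, fun n s hs => ?_⟩
  rcases Nat.eq_zero_or_pos n with hn | hn
  · subst hn; rw [tau_zero]; simp; positivity
  have hn0 : (0:ℝ) < n := by exact_mod_cast hn
  rw [norm_mul, norm_mul, norm_mul, Complex.norm_natCast_cpow_of_pos hn, neg_re]
  have h1 := hd z n
  have h2 := hd w n
  have h3 : (n : ℝ) ^ (-s.re) ≤ (n : ℝ) ^ (-(1 / 2 + δ)) :=
    Real.rpow_le_rpow_of_exponent_le (by exact_mod_cast hn) (by linarith)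
  calc _ ≤ ((D * (n : ℝ) ^ (δ / 2)) * (n : ℝ) ^ (-(1 / 2 + δ))) *
        ((D * (n : ℝ) ^ (δ / 2)) * (n : ℝ) ^ (-(1 / 2 + δ))) := by gcongr
    _ = D * D * ((n : ℝ) ^ (δ / 2) * (n : ℝ) ^ (-(1 / 2 + δ)) *
        ((n : ℝ) ^ (δ / 2) * (n : ℝ) ^ (-(1 / 2 + δ)))) := by ring
    _ = _ := by
        rw [← Real.rpow_add hn0, ← Real.rpow_add hn0]
        congr 2
        ring

lemma Dz_bd (z w : Fin k → ℝ) {δ : ℝ} (hδ : 0 < δ) : ∃ Z : ℝ, 0 ≤ Z ∧ ∀ s : ℂ, 1 / 2 + δ ≤ s.re →
    ‖Dz z w s‖ ≤ Z := by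
  obtain ⟨D, hD, hd⟩ := Dz_term z w hδ
  have hsum : Summable (fun n : ℕ => D * (n : ℝ) ^ (-(1 + δ))) :=
    (Real.summable_nat_rpow.2 (by linarith)).mul_left D
  refine ⟨∑' n : ℕ, D * (n : ℝ) ^ (-(1 + δ)), tsum_nonneg fun n => by positivity, fun s hs => ?_⟩
  unfold Dz
  exact tsum_of_norm_bounded hsum.hasSum fun n => hd n s hs

lemma Dz_diff (z w : Fin k → ℝ) {s : ℂ} (hs : 1 / 2 < s.re) : DifferentiableAt ℂ (Dz z w) s := by
  obtain ⟨δ, hδ⟩ : ∃ δ : ℝ, δ = (s.re - 1 / 2) / 2 := ⟨_, rfl⟩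
  have hδ0 : 0 < δ := by rw [hδ]; linarith
  obtain ⟨D, hD, hd⟩ := Dz_term z w hδ0
  have hsum : Summable (fun n : ℕ => D * (n : ℝ) ^ (-(1 + δ))) :=
    (Real.summable_nat_rpow.2 (by linarith)).mul_left D
  have hO : IsOpen {s : ℂ | 1 / 2 + δ < s.re} := isOpen_lt continuous_const Complex.continuous_re
  have h1 : DifferentiableOn ℂ (Dz z w) {s : ℂ | 1 / 2 + δ < s.re} := by
    unfold Dz
    refine differentiableOn_tsum_of_summable_norm hsum (fun n => ?_) hO fun n s hs => hd n s (le_of_lt hs)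
    rcases Nat.eq_zero_or_pos n with hn | hn
    · subst hn
      simp only [tau_zero, zero_mul]
      exact differentiableOn_const 0
    · have hn0 : (n : ℂ) ≠ 0 := by exact_mod_cast hn.ne'
      intro x _
      have h2 : DifferentiableAt ℂ (fun s : ℂ => (n : ℂ) ^ (-s)) x :=
        DifferentiableAt.const_cpow (by fun_prop) (Or.inl hn0)
      exact ((h2.const_mul _).mul (h2.const_mul _)).differentiableWithinAt
  refine h1.differentiableAt (hO.mem_nhds ?_)
  rw [mem_ofPred_eq, hδ]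
  linarith

/-- the diagonal series in terms of `dg` -/
lemma dg_Dz {z w : Fin k → ℝ} {a b : Fin k → ℂ} {s : ℂ}
    (ha : ∀ j, a j = z j - I * (s - 1 / 2)) (hb : ∀ j, b j = -(w j) + I * (s - 1 / 2)) :
    ∑' n, dg a b n = Dz z w s := by
  unfold Dz
  refine tsum_congr fun n => ?_
  unfold dg
  rcases Nat.eq_zero_or_pos n with hn | hn
  · subst hn; simp [tau_zero]
  have hn0 : (n : ℂ) ≠ 0 := by exact_mod_cast hn.ne'
  have e1 : (fun j => I * b j) = fun j => -(w j * I) + -(s - 1 / 2) := by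
    funext j
    rw [hb]
    linear_combination (s - 1 / 2) * I_sq
  have e2 : (fun j => -(I * a j)) = fun j => -(z j * I) + -(s - 1 / 2) := by
    funext j
    rw [ha]
    linear_combination (s - 1 / 2) * I_sq
  rw [e1, e2, tau_shift, tau_shift]
  have e3 : (n : ℂ) ^ (-(s - 1 / 2)) * (n : ℂ) ^ (-(s - 1 / 2)) * (n : ℂ)⁻¹ =
      (n : ℂ) ^ (-s) * (n : ℂ) ^ (-s) := by
    rw [← Complex.cpow_neg_one, ← Complex.cpow_add _ _ hn0, ← Complex.cpow_add _ _ hn0,
      ← Complex.cpow_add _ _ hn0]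
    congr 1; ring
  linear_combination (tau (fun j => -(w j * I)) n * tau (fun j => -(z j * I)) n) * e3

/-- good permutations -/
def Good (v : Fin k ⊕ Fin k → ℝ) (π : Equiv.Perm (Fin k ⊕ Fin k)) : Prop :=
  ∀ j, v (π (Sum.inl j)) = 1 ∧ v (π (Sum.inr j)) = -1

/-- the shifts of the first block -/
def zz (g : Fin k ⊕ Fin k → ℝ) (π : Equiv.Perm (Fin k ⊕ Fin k)) : Fin k → ℝ := fun j => g (π (Sum.inl j))

/-- minus the shifts of the second block -/
def ww (g : Fin k ⊕ Fin k → ℝ) (π : Equiv.Perm (Fin k ⊕ Fin k)) : Fin k → ℝ := fun j => -g (π (Sum.inr j))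

/-- swapped indices in the first block -/
def SL (π : Equiv.Perm (Fin k ⊕ Fin k)) : Finset (Fin k) :=
  Finset.univ.filter fun j => (π (Sum.inl j)).isRight = true

/-- swapped indices in the second block -/
def SR (π : Equiv.Perm (Fin k ⊕ Fin k)) : Finset (Fin k) :=
  Finset.univ.filter fun j => (π (Sum.inr j)).isLeft = true

lemma card_SL_SR (π : Equiv.Perm (Fin k ⊕ Fin k)) : (SL π).card = (SR π).card := by
  -- count the left elements
  have h1 : (Finset.univ.filter fun i : Fin k ⊕ Fin k => (π i).isLeft = true).card = k := by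
    have : (Finset.univ.filter fun i : Fin k ⊕ Fin k => (π i).isLeft = true).card =
        (Finset.univ.filter fun i : Fin k ⊕ Fin k => i.isLeft = true).card := by
      refine Finset.card_bij (fun i _ => π i) ?_ ?_ ?_
      · intro i hi; simpa using hi
      · intro a _ b _ h; exact π.injective h
      · intro b hb; exact ⟨π.symm b, by simpa using hb, by simp⟩
    rw [this]
    have h2 : (Finset.univ.filter fun i : Fin k ⊕ Fin k => i.isLeft = true) =
        Finset.univ.map ⟨Sum.inl, Sum.inl_injective⟩ := by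
      ext i
      rcases i with i | i <;> simp
    rw [h2, Finset.card_map, Finset.card_univ, Fintype.card_fin]
  have h3 : (Finset.univ.filter fun i : Fin k ⊕ Fin k => (π i).isLeft = true).card =
      (Finset.univ.filter fun j : Fin k => (π (Sum.inl j)).isLeft = true).card + (SR π).card := by
    rw [Finset.card_filter, Fintype.sum_sum_type]
    unfold SR
    rw [Finset.card_filter, Finset.card_filter]
  have h4 : (Finset.univ.filter fun j : Fin k => (π (Sum.inl j)).isLeft = true).card + (SL π).card = k := by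
    unfold SL
    have h5 := Finset.card_filter_add_card_filter_not (s := (Finset.univ : Finset (Fin k)))
      (fun j => (π (Sum.inl j)).isLeft = true)
    rw [Finset.card_univ, Fintype.card_fin] at h5
    have h6 : (Finset.univ.filter fun j : Fin k => (π (Sum.inl j)).isRight = true) =
        Finset.univ.filter fun j : Fin k => ¬ (π (Sum.inl j)).isLeft = true := by
      ext j
      simp
    rw [h6]
    exact h5
  omega

/-- the main term on the strip -/
lemma Rt_good {g v : Fin k ⊕ Fin k → ℝ} {π : Equiv.Perm (Fin k ⊕ Fin k)} (hπ : Good v π) {s : ℂ}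
    (h1 : 1 / 2 < s.re) (h2 : s.re < 3 / 4) (t : ℝ) :
    Rt t (LR g v s) π = (XS (zz g π) (SL π) (s + t * I) * XS (ww g π) (SR π) (s - t * I)) *
      Dz (zz g π) (ww g π) s := by
  have e1 : ∀ j, LR g v s (π (Sum.inl j)) = zz g π j - I * (s - 1 / 2) := by
    intro j
    rw [LR_apply, (hπ j).1]
    unfold zz
    push_cast; ring
  have e2 : ∀ j, LR g v s (π (Sum.inr j)) = -(ww g π j) + I * (s - 1 / 2) := by
    intro j
    rw [LR_apply, (hπ j).2]
    unfold ww
    push_cast; ring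
  have eG1 : (∏ j : Fin k, if (π (Sum.inl j)).isRight then
      chi (1 / 2 - I * t - I * LR g v s (π (Sum.inl j))) else 1) = XS (zz g π) (SL π) (s + t * I) := by
    unfold XS SL
    rw [Finset.prod_filter]
    refine Finset.prod_congr rfl fun j _ => ?_
    split_ifs with hj
    · rw [e1]
      have e : 1 / 2 - I * t - I * ((zz g π j : ℂ) - I * (s - 1 / 2)) =
          1 - (s + t * I + zz g π j * I) := by
        linear_combination (s - 1 / 2) * I_sq
      rw [e, chi_XX (by simp; linarith) (by simp; linarith)]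
    · rfl
  have eG2 : (∏ j : Fin k, if (π (Sum.inr j)).isLeft then
      chi (1 / 2 + I * t + I * LR g v s (π (Sum.inr j))) else 1) = XS (ww g π) (SR π) (s - t * I) := by
    unfold XS SR
    rw [Finset.prod_filter]
    refine Finset.prod_congr rfl fun j _ => ?_
    split_ifs with hj
    · rw [e2]
      have e : 1 / 2 + I * t + I * (-(ww g π j : ℂ) + I * (s - 1 / 2)) =
          1 - (s - t * I + ww g π j * I) := by
        linear_combination (s - 1 / 2) * I_sq
      rw [e, chi_XX (by simp; linarith) (by simp; linarith)]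
    · rfl
  have ez : zab (fun j => LR g v s (π (Sum.inl j))) (fun j => LR g v s (π (Sum.inr j))) =
      Dz (zz g π) (ww g π) s := by
    unfold zab
    have him1 : ∀ j, (LR g v s (π (Sum.inl j))).im = -(s.re - 1 / 2) := by
      intro j; rw [LR_im, (hπ j).1]; ring
    have him2 : ∀ j, (LR g v s (π (Sum.inr j))).im = s.re - 1 / 2 := by
      intro j; rw [LR_im, (hπ j).2]; ring
    have hpos : 0 < s.re - 1 / 2 := by linarith
    rw [zh_eq (c := s.re - 1 / 2) (δ := s.re - 1 / 2) (by linarith) (fun j => ?_) hpos (fun j => ?_)]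
    · exact dg_Dz e1 e2
    · rw [him1, him2, abs_neg, abs_of_pos hpos]
      exact ⟨le_rfl, le_rfl⟩
    · rw [him1, him2]
      exact ⟨le_rfl, le_rfl⟩
  unfold Rt GG
  rw [eG1, eG2, ez]

lemma XS_bd {c : ℝ} (hc : 1 ≤ c) (z : Fin k → ℝ) : ∃ (K : ℝ) (B : ℕ), 1 ≤ K ∧
    ∀ (S : Finset (Fin k)) (s : ℂ), 1 / 2 ≤ s.re → s.re ≤ c → ‖XS z S s‖ ≤ K * (1 + |s.im|) ^ B := by
  obtain ⟨K, hK1, hK⟩ := XX_bound hc
  obtain ⟨B, hB⟩ := exists_nat_ge (c - 1 / 2)
  have hR := RR_pos z
  set A : ℝ := K * (RR z) ^ B with hA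
  have hA1 : 1 ≤ A := by
    have : (1:ℝ) ≤ (RR z) ^ B := one_le_pow₀ hR
    nlinarith
  refine ⟨A ^ k, B * k, one_le_pow₀ hA1, fun S s h1 h2 => ?_⟩
  have hy : 1 ≤ 1 + |s.im| := by have := abs_nonneg s.im; linarith
  have hf : ∀ j, ‖XX (s + z j * I)‖ ≤ A * (1 + |s.im|) ^ B := by
    intro j
    have h3 := hK s.re (s.im + z j) h1 h2
    have e : ((s.re : ℂ) + ((s.im + z j : ℝ) : ℂ) * I) = s + z j * I := by
      conv_rhs => rw [← Complex.re_add_im s]
      push_cast; ring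
    rw [e] at h3
    have h5 : 1 + |s.im + z j| ≤ RR z * (1 + |s.im|) := by
      have := RR_le z j
      have := abs_add_le s.im (z j)
      have := mul_nonneg (abs_nonneg s.im) (abs_nonneg (z j))
      have := abs_nonneg s.im
      nlinarith
    have h6 : (1 + |s.im + z j|) ^ (c - 1 / 2) ≤ (RR z * (1 + |s.im|)) ^ B := by
      have h7 : 1 ≤ 1 + |s.im + z j| := by have := abs_nonneg (s.im + z j); linarith
      calc _ ≤ (1 + |s.im + z j|) ^ (B : ℝ) := Real.rpow_le_rpow_of_exponent_le h7 hB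
        _ = (1 + |s.im + z j|) ^ B := Real.rpow_natCast _ _
        _ ≤ _ := by gcongr
    have hK0 : 0 ≤ K := by linarith
    calc _ ≤ K * (RR z * (1 + |s.im|)) ^ B := h3.trans (by gcongr)
      _ = _ := by rw [hA, mul_pow]; ring
  unfold XS
  rw [norm_prod]
  have hA0 : 0 ≤ A := by linarith
  calc ∏ j ∈ S, ‖XX (s + z j * I)‖ ≤ ∏ _j ∈ S, (A * (1 + |s.im|) ^ B) :=
        Finset.prod_le_prod (fun _ _ => norm_nonneg _) fun j _ => hf j
    _ = (A * (1 + |s.im|) ^ B) ^ S.card := by rw [Finset.prod_const]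
    _ ≤ (A * (1 + |s.im|) ^ B) ^ k := by
        refine pow_le_pow_right₀ ?_ ?_
        · have : (1:ℝ) ≤ (1 + |s.im|) ^ B := one_le_pow₀ hy
          nlinarith
        · have := Finset.card_le_univ S
          rwa [Fintype.card_fin] at this
    _ = _ := by rw [mul_pow, ← pow_mul]

/-- moving the main term to the line `1 + 4κ` -/
theorem JR_move {g v : Fin k ⊕ Fin k → ℝ} {ξ1 : ℝ} {ψ : ℝ → ℂ}
    (h : TF ξ1 ψ) {c0 : ℝ} (hc0 : 0 < c0) (hc : c0 < 1 / 4) {κ : ℝ} (hκ : 0 < κ)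
    {π : Equiv.Perm (Fin k ⊕ Fin k)} (hπ : Good v π) {L t : ℝ} (hL : 1 ≤ L) (ht : 0 ≤ t) :
    JR ψ g v c0 L π t = ∫ y : ℝ, Pc ψ κ L y *
      ((XS (zz g π) (SL π) ((1 + 4 * κ : ℝ) + (y + t : ℝ) * I) *
        XS (ww g π) (SR π) ((1 + 4 * κ : ℝ) + (y - t : ℝ) * I)) *
        Dz (zz g π) (ww g π) ((1 + 4 * κ : ℝ) + y * I)) := by
  obtain ⟨K1, B1, hK1, hb1⟩ := XS_bd (c := 1 + 4 * κ) (by linarith) (zz g π)
  obtain ⟨K2, B2, hK2, hb2⟩ := XS_bd (c := 1 + 4 * κ) (by linarith) (ww g π)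
  obtain ⟨Z, hZ, hz⟩ := Dz_bd (zz g π) (ww g π) hc0
  obtain ⟨CN, hCN, hP⟩ := P_line h (B1 + B2)
  have hL0 : 0 < L := by linarith
  have hK10 : 0 ≤ K1 := by linarith
  have hK20 : 0 ≤ K2 := by linarith
  set E : ℝ := Real.exp (|ξ1| * (L * (1 / 2 + 4 * κ))) with hE
  have key := strip_shift (f := fun s => P ψ (L * (s - 1 / 2)) *
      ((XS (zz g π) (SL π) (s + t * I) * XS (ww g π) (SR π) (s - t * I)) * Dz (zz g π) (ww g π) s))
    (a := 1 / 2 + c0) (b := 1 + 4 * κ)
    (B := CN * E * (K1 * (1 + t) ^ B1 * (K2 * (1 + t) ^ B2) * Z)) (by linarith) (by positivity)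
    (fun s h1 h2 => ?_) (fun s h1 h2 => ?_)
  · have hl : JR ψ g v c0 L π t = ∫ y : ℝ, P ψ (L * ((((1 / 2 + c0 : ℝ) : ℂ) + y * I) - 1 / 2)) *
        ((XS (zz g π) (SL π) ((((1 / 2 + c0 : ℝ) : ℂ) + y * I) + t * I) *
          XS (ww g π) (SR π) ((((1 / 2 + c0 : ℝ) : ℂ) + y * I) - t * I)) *
          Dz (zz g π) (ww g π) (((1 / 2 + c0 : ℝ) : ℂ) + y * I)) := by
      unfold JR
      congr 1; funext y
      rw [Rt_good hπ (by rw [line_re]; linarith) (by rw [line_re]; linarith), line_sub]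
    rw [hl, key]
    congr 1; funext y
    unfold Pc
    have q1 : (L:ℂ) * ((((1 + 4 * κ : ℝ) : ℂ) + y * I) - 1 / 2) =
        ((L * (1 + 4 * κ - 1 / 2) : ℝ) : ℂ) + L * y * I := by push_cast; ring
    have q2 : (((1 + 4 * κ : ℝ) : ℂ) + y * I) + t * I = ((1 + 4 * κ : ℝ) : ℂ) + ((y + t : ℝ) : ℂ) * I := by
      push_cast; ring
    have q3 : (((1 + 4 * κ : ℝ) : ℂ) + y * I) - t * I = ((1 + 4 * κ : ℝ) : ℂ) + ((y - t : ℝ) : ℂ) * I := by
      push_cast; ring
    rw [q1, q2, q3]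
  · have d1 : DifferentiableAt ℂ (fun s : ℂ => P ψ (L * (s - 1 / 2))) s :=
      ((P_diff h) _).comp s (by fun_prop)
    have d2 : DifferentiableAt ℂ (fun s : ℂ => XS (zz g π) (SL π) (s + t * I)) s :=
      DifferentiableAt.comp s (f := fun s : ℂ => s + t * I) (XS_diff _ _ (by simp; linarith)) (by fun_prop)
    have d3 : DifferentiableAt ℂ (fun s : ℂ => XS (ww g π) (SR π) (s - t * I)) s :=
      DifferentiableAt.comp s (f := fun s : ℂ => s - t * I) (XS_diff _ _ (by simp; linarith)) (by fun_prop)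
    exact d1.mul ((d2.mul d3).mul (Dz_diff _ _ (by linarith)))
  · have g1 := hP L s hL (by linarith)
    have g2 := hb1 (SL π) (s + t * I) (by simp; linarith) (by simp; linarith)
    have g3 := hb2 (SR π) (s - t * I) (by simp; linarith) (by simp; linarith)
    have g4 := hz s h1
    have e2 : (s + t * I).im = s.im + t := by simp
    have e3 : (s - t * I).im = s.im - t := by simp
    rw [e2] at g2
    rw [e3] at g3
    have h3 := one_add_abs_add s.im t ht
    have h4 := one_add_abs_sub s.im t ht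
    have g5 : Real.exp (ξ1 * (L * (s.re - 1 / 2))) ≤ E := by
      rw [hE]
      refine Real.exp_le_exp.2 ?_
      have h0 : 0 ≤ L * (s.re - 1 / 2) := mul_nonneg hL0.le (by linarith)
      calc ξ1 * (L * (s.re - 1 / 2)) ≤ |ξ1| * (L * (s.re - 1 / 2)) :=
            mul_le_mul_of_nonneg_right (le_abs_self _) h0
        _ ≤ _ := by
            gcongr
            linarith
    have hy : 0 < 1 + |s.im| := by positivity
    have g6 := g1.trans (by gcongr : CN * Real.exp (ξ1 * (L * (s.re - 1 / 2))) /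
            (1 + |s.im|) ^ (2 + (B1 + B2)) ≤ CN * E / (1 + |s.im|) ^ (2 + (B1 + B2)))
    have g7 : ‖XS (zz g π) (SL π) (s + t * I)‖ ≤ K1 * ((1 + |s.im|) * (1 + t)) ^ B1 :=
      g2.trans (by gcongr)
    have g8 : ‖XS (ww g π) (SR π) (s - t * I)‖ ≤ K2 * ((1 + |s.im|) * (1 + t)) ^ B2 :=
      g3.trans (by gcongr)
    rw [norm_mul, norm_mul, norm_mul]
    calc _ ≤ (CN * E / (1 + |s.im|) ^ (2 + (B1 + B2))) *
          ((K1 * ((1 + |s.im|) * (1 + t)) ^ B1) * (K2 * ((1 + |s.im|) * (1 + t)) ^ B2) * Z) := by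
          gcongr
      _ = _ := by
          rw [pow_add (1 + |s.im|) 2 (B1 + B2), pow_add (1 + |s.im|) B1 B2, mul_pow, mul_pow]
          field_simp

end

end Pool.Agent.TH612.CF
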