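import Pool.Agent.H27.G.R_seed8.TH612.CF.Shq

set_option autoImplicit false

/-! Partially reflected products of zeta functions. -/

namespace Pool.Agent.TH612.CF

open Complex Filter Topology MeasureTheory Set
open scoped ContDiff
open Pool.Agent.W182.KO

noncomputable section

variable {k : ℕ}

/-- product of functional equation factors over a set of indices -/
def XS (z : Fin k → ℝ) (S : Finset (Fin k)) (s : ℂ) : ℂ := ∏ j ∈ S, XX (s + z j * I)

/-- partially reflected product -/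
def ZM (z : Fin k → ℝ) (S : Finset (Fin k)) (s : ℂ) : ℂ :=
  ∏ j, if j ∈ S then riemannZeta (1 - s - z j * I) else riemannZeta (s + z j * I)

lemma ZM_eq (z : Fin k → ℝ) (S : Finset (Fin k)) {s : ℂ} (hs : 0 < s.re) (h1 : ∀ j, s + z j * I ≠ 1) :
    ZM z S s = XS z S s * ZP z s := by
  have e1 : XS z S s = ∏ j, if j ∈ S then XX (s + z j * I) else 1 := by
    unfold XS
    rw [Finset.prod_ite_mem, Finset.univ_inter]
  rw [e1]
  unfold ZM ZP
  rw [← Finset.prod_mul_distrib]
  refine Finset.prod_congr rfl fun j _ => ?_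
  split_ifs
  · rw [← zeta_XX (by simpa using hs) (h1 j)]
    congr 1; ring
  · rw [one_mul]

lemma fac_bd {c : ℝ} (hc : 1 ≤ c) (z : Fin k → ℝ) {δ : ℝ} (hδ : 0 < δ) :
    ∃ (K : ℝ) (B : ℕ), 1 ≤ K ∧ ∀ (j : Fin k) (S : Finset (Fin k)) (s : ℂ), 1 / 2 ≤ s.re → s.re ≤ c →
      δ ≤ ‖s + z j * I - 1‖ →
      ‖(if j ∈ S then riemannZeta (1 - s - z j * I) else riemannZeta (s + z j * I))‖ ≤
        K * (1 + |s.im|) ^ B := by
  obtain ⟨K1, B1, hK1, hb1⟩ := zeta_refl_bound hc
  have hR := RR_pos z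
  set K2 : ℝ := 3 * (c + RR z + 1) ^ 2 / δ with hK2
  have hK20 : 0 ≤ K2 := by positivity
  refine ⟨K1 * (RR z) ^ B1 + K2, B1 + 2, ?_, fun j S s h1 h2 h3 => ?_⟩
  · have : (1:ℝ) ≤ (RR z) ^ B1 := one_le_pow₀ hR
    nlinarith
  have hy : 1 ≤ 1 + |s.im| := by have := abs_nonneg s.im; linarith
  have hRj := RR_le z j
  split_ifs with hj
  · have h4 := hb1 (s + z j * I) (by simpa using h1) (by simpa using h2)
    have e1 : 1 - (s + z j * I) = 1 - s - z j * I := by ring
    have e2 : (s + z j * I).im = s.im + z j := by simp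
    rw [e1, e2] at h4
    have h5 : 1 + |s.im + z j| ≤ RR z * (1 + |s.im|) := by
      have := abs_add_le s.im (z j)
      have := mul_nonneg (abs_nonneg s.im) (abs_nonneg (z j))
      have := abs_nonneg s.im
      nlinarith
    have hK10 : 0 ≤ K1 := by linarith
    calc _ ≤ K1 * (RR z * (1 + |s.im|)) ^ B1 := h4.trans (by gcongr)
      _ = K1 * (RR z) ^ B1 * (1 + |s.im|) ^ B1 := by rw [mul_pow]; ring
      _ ≤ (K1 * (RR z) ^ B1 + K2) * (1 + |s.im|) ^ (B1 + 2) := by
          have h6 : (1 + |s.im|) ^ B1 ≤ (1 + |s.im|) ^ (B1 + 2) := pow_le_pow_right₀ hy (by omega)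
          have : 0 ≤ RR z := by linarith
          gcongr
          linarith
  · have h4 := zeta_sep (w := s + z j * I) (by simpa using h1) hδ h3
    have h5 : ‖s + z j * I‖ ≤ c + |s.im| + RR z - 1 := by
      calc ‖s + z j * I‖ ≤ ‖s‖ + ‖(z j * I : ℂ)‖ := norm_add_le _ _
        _ ≤ (|s.re| + |s.im|) + |z j| := by
            refine add_le_add (Complex.norm_le_abs_re_add_abs_im s) ?_
            simp
        _ ≤ _ := by
            rw [abs_of_nonneg (by linarith : 0 ≤ s.re)]
            linarith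
    have h6 : ‖s + z j * I‖ + 1 ≤ (c + RR z + 1) * (1 + |s.im|) := by
      have := abs_nonneg s.im
      nlinarith
    calc _ ≤ 3 * ((c + RR z + 1) * (1 + |s.im|)) ^ 2 / δ := h4.trans (by gcongr)
      _ = K2 * (1 + |s.im|) ^ 2 := by rw [hK2]; ring
      _ ≤ (K1 * (RR z) ^ B1 + K2) * (1 + |s.im|) ^ (B1 + 2) := by
          have h7 : (1 + |s.im|) ^ 2 ≤ (1 + |s.im|) ^ (B1 + 2) := pow_le_pow_right₀ hy (by omega)
          have : 0 ≤ K1 * (RR z) ^ B1 := by
            have : 0 ≤ RR z := by linarith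
            have : 0 ≤ K1 := by linarith
            positivity
          gcongr
          linarith

lemma ZM_DQ {κ : ℝ} (hκ : 0 < κ) (z : Fin k → ℝ) : ∃ M0 : ℕ, ∀ (S : Finset (Fin k)) (M : ℕ), M0 ≤ M →
    ∀ R : ℝ, RR z ≤ R → ∃ C, DQ (ZM z S) (1 + 4 * κ) R M C := by
  obtain ⟨K, B, hK, hb⟩ := fac_bd (c := 1 + 4 * κ) (by linarith) z (δ := min (1 / 2) (4 * κ))
    (by positivity)
  have hK0 : 0 ≤ K := by linarith
  refine ⟨B * k, fun S M hM R hR => ⟨K ^ k, ?_⟩⟩
  have hprod : ∀ s : ℂ, 1 / 2 ≤ s.re → s.re ≤ 1 + 4 * κ → (∀ j, min (1 / 2) (4 * κ) ≤ ‖s + z j * I - 1‖) →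
      ‖ZM z S s‖ ≤ K ^ k * (1 + |s.im|) ^ M := by
    intro s h1 h2 h3
    unfold ZM
    rw [norm_prod]
    refine (Finset.prod_le_prod (fun _ _ => norm_nonneg _) fun j _ => hb j S s h1 h2 (h3 j)).trans ?_
    rw [Finset.prod_const, Finset.card_univ, Fintype.card_fin, mul_pow, ← pow_mul]
    have : (1:ℝ) ≤ 1 + |s.im| := by have := abs_nonneg s.im; linarith
    gcongr
  have hfar : ∀ s : ℂ, R ≤ |s.im| → ∀ j, 1 ≤ ‖s + z j * I - 1‖ := by
    intro s hs j
    have h1 := Complex.abs_im_le_norm (s + z j * I - 1)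
    simp only [sub_im, add_im, mul_im, ofReal_re, I_im, mul_one, ofReal_im, I_re, mul_zero, add_zero,
      one_im, sub_zero] at h1
    have h2 := RR_le z j
    have h3 := abs_sub_abs_le_abs_sub s.im (-z j)
    rw [abs_neg, sub_neg_eq_add] at h3
    linarith
  have hm1 : min (1 / 2) (4 * κ) ≤ 1 / 2 := min_le_left _ _
  have hm2 : min (1 / 2) (4 * κ) ≤ 4 * κ := min_le_right _ _
  refine ⟨by positivity, ?_, ?_, ?_, ?_, ?_, ?_⟩
  · intro s h1 h2 h3
    have h4 := hfar s h3
    unfold ZM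
    refine DifferentiableAt.fun_finsetProd (fun j _ => ?_)
    split_ifs with hj
    · refine DifferentiableAt.comp s (differentiableAt_riemannZeta ?_) (by fun_prop)
      intro h
      have := congrArg Complex.re h
      simp at this
      linarith
    · refine DifferentiableAt.comp s (differentiableAt_riemannZeta ?_) (by fun_prop)
      intro h
      have := h4 j
      rw [h] at this
      simp at this
      linarith
  · unfold ZM
    refine continuous_finsetProd _ fun j _ => ?_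
    split_ifs with hj
    · have h1 := H306R2.zeta_line_continuous.comp (by fun_prop : Continuous fun u : ℝ => -(u + z j))
      refine h1.congr fun u => ?_
      simp only [Function.comp]
      congr 1
      push_cast
      ring
    · have h1 := H306R2.zeta_line_continuous.comp (by fun_prop : Continuous fun u : ℝ => u + z j)
      refine h1.congr fun u => ?_
      simp only [Function.comp]
      congr 1
      push_cast
      ring
  · unfold ZM
    refine continuous_finsetProd _ fun j _ => ?_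
    split_ifs with hj
    · rw [continuous_iff_continuousAt]
      intro u
      have h5 : DifferentiableAt ℂ riemannZeta (1 - (((1 + 4 * κ : ℝ) : ℂ) + u * I) - z j * I) := by
        refine differentiableAt_riemannZeta ?_
        intro h
        have := congrArg Complex.re h
        simp at this
        linarith
      exact ContinuousAt.comp (f := fun u : ℝ => (1 - (((1 + 4 * κ : ℝ) : ℂ) + u * I) - z j * I))
        h5.continuousAt (by fun_prop)
    · rw [continuous_iff_continuousAt]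
      intro u
      have h5 : DifferentiableAt ℂ riemannZeta (((1 + 4 * κ : ℝ) : ℂ) + u * I + z j * I) := by
        refine differentiableAt_riemannZeta ?_
        intro h
        have := congrArg Complex.re h
        simp at this
        linarith
      exact ContinuousAt.comp (f := fun u : ℝ => (((1 + 4 * κ : ℝ) : ℂ) + u * I + z j * I))
        h5.continuousAt (by fun_prop)
  · intro u
    have h1 := hprod (1 / 2 + u * I) (by simp) (by simp; linarith) (fun j => ?_)
    · have h2 : (1 / 2 + (u:ℂ) * I).im = u := by simp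
      rwa [h2] at h1
    · have h1 := Complex.abs_re_le_norm (1 / 2 + u * I + z j * I - 1)
      simp at h1
      norm_num at h1
      refine hm1.trans (le_trans ?_ h1)
      norm_num
  · intro s h1 h2 h3
    exact hprod s h1 h2 fun j => by linarith [hfar s h3 j]
  · intro u
    have h1 := hprod (((1 + 4 * κ : ℝ) : ℂ) + u * I) (by simp; linarith) (by simp) (fun j => ?_)
    · have h2 : ((((1 + 4 * κ : ℝ) : ℂ)) + (u:ℂ) * I).im = u := by simp
      rwa [h2] at h1
    · have h1 := Complex.re_le_norm (((1 + 4 * κ : ℝ) : ℂ) + u * I + z j * I - 1)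
      simp at h1
      refine hm2.trans ?_
      push_cast
      exact h1

lemma prod_emb {S : Finset (Fin k)} {m : ℕ} (hS : S.card = m) (f : Fin k → ℂ) :
    ∏ j ∈ S, f j = ∏ i : Fin m, f (S.orderEmbOfFin hS i) := by
  conv_lhs => rw [← Finset.map_orderEmbOfFin_univ S hS]
  rw [Finset.prod_map]
  rfl

lemma sum_emb {S : Finset (Fin k)} {m : ℕ} (hS : S.card = m) (f : Fin k → ℝ) :
    ∑ j ∈ S, f j = ∑ i : Fin m, f (S.orderEmbOfFin hS i) := by
  conv_lhs => rw [← Finset.map_orderEmbOfFin_univ S hS]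
  rw [Finset.sum_map]
  rfl

theorem HS_asymp {c : ℝ} (hc : 1 ≤ c) (z w : Fin k → ℝ) {S S' : Finset (Fin k)} {m : ℕ}
    (hS : S.card = m) (hS' : S'.card = m) :
    ∃ (K : ℝ) (B : ℕ), 0 ≤ K ∧ ∀ t y : ℝ, 1 ≤ t →
      ‖XS z S ((c : ℂ) + (y + t : ℝ) * I) * XS w S' ((c : ℂ) + (y - t : ℝ) * I) -
        MM c m ((∑ j ∈ S, z j) + ∑ j ∈ S', w j) y t‖ ≤ K * (1 + |y|) ^ B * t ^ (m * (2 * c - 1) - 1) := by
  rcases Nat.eq_zero_or_pos m with hm | hm
  · subst hm
    rw [Finset.card_eq_zero] at hS hS'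
    subst hS hS'
    refine ⟨0, 0, le_rfl, fun t y _ => ?_⟩
    unfold XS MM
    simp
  · obtain ⟨K, B, hK, hb⟩ := H_asymp hc hm (fun i => z (S.orderEmbOfFin hS i))
      (fun i => w (S'.orderEmbOfFin hS' i))
    refine ⟨K, B, hK, fun t y ht => ?_⟩
    have h1 := hb t y ht
    have e1 : XS z S ((c : ℂ) + (y + t : ℝ) * I) = XZ (fun i => z (S.orderEmbOfFin hS i))
        ((c : ℂ) + (y + t : ℝ) * I) := by
      unfold XS XZ
      exact prod_emb hS _
    have e2 : XS w S' ((c : ℂ) + (y - t : ℝ) * I) = XZ (fun i => w (S'.orderEmbOfFin hS' i))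
        ((c : ℂ) + (y - t : ℝ) * I) := by
      unfold XS XZ
      exact prod_emb hS' _
    have e3 : (∑ j ∈ S, z j) + ∑ j ∈ S', w j =
        ∑ i : Fin m, (z (S.orderEmbOfFin hS i) + w (S'.orderEmbOfFin hS' i)) := by
      rw [Finset.sum_add_distrib, sum_emb hS, sum_emb hS']
    rw [e1, e2, e3]
    exact h1

lemma XS_diff (z : Fin k → ℝ) (S : Finset (Fin k)) {s : ℂ} (hs : 0 < s.re) :
    DifferentiableAt ℂ (XS z S) s := by
  unfold XS
  refine DifferentiableAt.fun_finsetProd (fun j _ => ?_)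
  exact DifferentiableAt.comp s (f := fun s : ℂ => s + z j * I) (XX_diff (by simpa using hs)) (by fun_prop)

lemma XS_line_cont (z : Fin k → ℝ) (S : Finset (Fin k)) {c : ℝ} (hc : 0 < c) :
    Continuous (fun u : ℝ => XS z S ((c : ℂ) + u * I)) := by
  rw [continuous_iff_continuousAt]
  intro u
  exact ContinuousAt.comp (f := fun u : ℝ => ((c : ℂ) + u * I)) (XS_diff z S (by simpa using hc)).continuousAt
    (by fun_prop)

/-- replacing the functional equation factors by the model -/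
theorem model_gen {ξ1 : ℝ} {ψ : ℝ → ℂ} (h : TF ξ1 ψ) {κ : ℝ} (hκ : 0 < κ)
    (z w : Fin k → ℝ) {S S' : Finset (Fin k)} {m : ℕ} (hS : S.card = m) (hS' : S'.card = m) :
    ∃ C : ℝ, 0 ≤ C ∧ ∀ (L t Z : ℝ) (b : ℝ → ℂ), 1 ≤ L → 1 ≤ t → 0 ≤ Z → Continuous b →
      (∀ y, ‖b y‖ ≤ Z) →
      ‖(∫ y : ℝ, Pc ψ κ L y * ((XS z S ((1 + 4 * κ : ℝ) + (y + t : ℝ) * I) *
          XS w S' ((1 + 4 * κ : ℝ) + (y - t : ℝ) * I)) * b y)) -
        ∫ y : ℝ, Pc ψ κ L y * (MM (1 + 4 * κ) m ((∑ j ∈ S, z j) + ∑ j ∈ S', w j) y t * b y)‖ ≤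
        C * Z * Real.exp (ξ1 * (L * (1 + 4 * κ - 1 / 2))) * t ^ (m * (1 + 8 * κ) - 1) := by
  obtain ⟨K, B, hK, hH⟩ := HS_asymp (c := 1 + 4 * κ) (by linarith) z w hS hS'
  obtain ⟨CN, hCN, hP⟩ := P_bound h (0 + 2 + B)
  refine ⟨CN * K * J2, by have := J2_nonneg; positivity, fun L t Z b hL ht hZ0 hbc hbZ => ?_⟩
  have ht0 : 0 < t := by linarith
  set Sm : ℝ := (∑ j ∈ S, z j) + ∑ j ∈ S', w j with hSm
  set f1 : ℝ → ℂ := fun y => Pc ψ κ L y * ((XS z S ((1 + 4 * κ : ℝ) + (y + t : ℝ) * I) *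
          XS w S' ((1 + 4 * κ : ℝ) + (y - t : ℝ) * I)) * b y) with hf1
  set f2 : ℝ → ℂ := fun y => Pc ψ κ L y * (MM (1 + 4 * κ) m Sm y t * b y) with hf2
  have hPcc := Pc_cont (κ := κ) h L
  have hMMc : Continuous (fun y : ℝ => MM (1 + 4 * κ) m Sm y t) := by
    unfold MM; fun_prop
  have c1 : Continuous f1 := hPcc.mul ((((XS_line_cont z S (by linarith)).comp
    (by fun_prop : Continuous fun y : ℝ => y + t)).mul
    ((XS_line_cont w S' (by linarith)).comp (by fun_prop : Continuous fun y : ℝ => y - t))).mul hbc)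
  have c2 : Continuous f2 := hPcc.mul (hMMc.mul hbc)
  have hdiff : ∀ y, f1 y - f2 y = Pc ψ κ L y * ((XS z S ((1 + 4 * κ : ℝ) + (y + t : ℝ) * I) *
      XS w S' ((1 + 4 * κ : ℝ) + (y - t : ℝ) * I) - MM (1 + 4 * κ) m Sm y t) * b y) := by
    intro y
    rw [hf1, hf2]
    simp only
    ring
  have hbound : ∀ y, ‖f1 y - f2 y‖ ≤ (CN * Real.exp (ξ1 * (L * (1 + 4 * κ - 1 / 2))) *
      (K * t ^ (m * (1 + 8 * κ) - 1)) * Z) / (1 + |y|) ^ (0 + 2) := by
    intro y
    have e0 : ((L * (1 + 4 * κ - 1 / 2) : ℝ) + (L:ℂ) * y * I).re = L * (1 + 4 * κ - 1 / 2) := by simp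
    have e1 : ((L * (1 + 4 * κ - 1 / 2) : ℝ) + (L:ℂ) * y * I).im = L * y := by simp
    have hLc : 0 ≤ L * (1 + 4 * κ - 1 / 2) := mul_nonneg (by linarith) (by linarith)
    have g1 := P_bd_line (ψ := ψ) hP (z := (L * (1 + 4 * κ - 1 / 2) : ℝ) + (L:ℂ) * y * I) (y := y)
      (by rw [e0]; exact hLc) (by
      rw [e1, abs_mul, abs_of_pos (by linarith : 0 < L)]
      exact le_mul_of_one_le_left (abs_nonneg _) hL)
    rw [e0] at g1
    have g2 := hH t y ht
    have e3 : (m : ℝ) * (2 * (1 + 4 * κ) - 1) - 1 = m * (1 + 8 * κ) - 1 := by ring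
    rw [e3] at g2
    rw [hdiff, norm_mul, norm_mul]
    have hy : 0 < 1 + |y| := by positivity
    calc _ ≤ (CN * Real.exp (ξ1 * (L * (1 + 4 * κ - 1 / 2))) / (1 + |y|) ^ (0 + 2 + B)) *
          ((K * (1 + |y|) ^ B * t ^ (m * (1 + 8 * κ) - 1)) * Z) := by
          have q1 : ‖Pc ψ κ L y‖ ≤ CN * Real.exp (ξ1 * (L * (1 + 4 * κ - 1 / 2))) /
            (1 + |y|) ^ (0 + 2 + B) := g1
          have q2 := hbZ y
          gcongr
      _ = _ := by
          rw [pow_add (1 + |y|) (0 + 2) B]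
          field_simp
  have i12 : Integrable (fun y => f1 y - f2 y) :=
    decay_integrable (n := 0) (c1.sub c2) (by positivity) hbound
  have i2 : Integrable f2 := by
    refine (Pc_int h hκ hL).mul_bdd (c := (t / (2 * Real.pi)) ^ (m * (2 * (1 + 4 * κ) - 1)) * Z) ?_ ?_
    · exact (hMMc.mul hbc).aestronglyMeasurable
    · refine Eventually.of_forall fun y => ?_
      rw [norm_mul, MM_norm _ _ _ ht0]
      have := hbZ y
      gcongr
  have i1 : Integrable f1 := by
    have := i12.add i2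
    refine this.congr (Eventually.of_forall fun y => ?_)
    simp only [Pi.add_apply]
    ring
  rw [← integral_sub i1 i2]
  refine (norm_integral_decay (n := 0) (by positivity) hbound).trans (le_of_eq ?_)
  ring

end

end Pool.Agent.TH612.CF
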