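import Pool.Agent.H27.G.R_seed8.TH612.CF.Fb
import Pool.Agent.H27.G.R_seed8.TH612.CF.Cb

set_option autoImplicit false

/-! The main theorem. -/

namespace Pool.Agent.TH612.CF

open Complex Filter Topology MeasureTheory Set Asymptotics
open scoped ContDiff
open Pool.Agent.W182.KO

noncomputable section

variable {k : ℕ}

lemma DQ_pair (z w : Fin k → ℝ) (S S' : Finset (Fin k)) :
    ∃ (R : ℝ) (M : ℕ) (C1 C2 : ℝ), DQ (ZM z S) (1 + 4 * 1) R M C1 ∧ DQ (ZM w S') (1 + 4 * 1) R M C2 := by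
  obtain ⟨M1, hM1⟩ := ZM_DQ one_pos z
  obtain ⟨M2, hM2⟩ := ZM_DQ one_pos w
  obtain ⟨C1, G1⟩ := hM1 S (M1 + M2) (by omega) (max (RR z) (RR w)) (le_max_left _ _)
  obtain ⟨C2, G2⟩ := hM2 S' (M1 + M2) (by omega) (max (RR z) (RR w)) (le_max_right _ _)
  exact ⟨_, _, C1, C2, G1, G2⟩

lemma Z_prodint {g v : Fin k ⊕ Fin k → ℝ} {π : Equiv.Perm (Fin k ⊕ Fin k)} (hπ : Good v π) {ξ1 : ℝ}
    {ψ : ℝ → ℂ} (h : TF ξ1 ψ) {L : ℝ} (hL : 1 ≤ L) (T : ℝ) :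
    Integrable (fun p : ℝ × ℝ => P ψ (L * p.2 * I) * Zg (gl g v p.2) p.1)
      ((volume.restrict (Ioc 0 T)).prod volume) := by
  obtain ⟨R, M, C1, C2, G1, G2⟩ := DQ_pair (zz g π) (ww g π) (SL π) (SR π)
  have := I0_prodint_q h G1 G2 hL T
  refine this.congr (Eventually.of_forall fun p => ?_)
  simp only
  rw [Zg_ZM hπ]

/-- the zeta side -/
def AZ (ψ : ℝ → ℂ) (g v : Fin k ⊕ Fin k → ℝ) (T : ℝ) : ℂ :=
  ∫ y : ℝ, P ψ (Real.log T * y * I) * (∫ t in (0:ℝ)..T, Zg (gl g v y) t)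

/-- the average of the difference -/
def EE (ψ : ℝ → ℂ) (g v : Fin k ⊕ Fin k → ℝ) (T y : ℝ) : ℂ :=
  P ψ (Real.log T * y * I) * (∫ t in (0:ℝ)..T, (Zg (gl g v y) t -
    ((Nat.factorial k : ℂ) ^ 2)⁻¹ * Qs t (fun i => (gl g v y i : ℂ))))

lemma EE_int {g v : Fin k ⊕ Fin k → ℝ} {π0 : Equiv.Perm (Fin k ⊕ Fin k)} (h0 : Good v π0)
    (hi : CI g v) {ξ1 : ℝ} {ψ : ℝ → ℂ} (h : TF ξ1 ψ) {T : ℝ} (hTe : Real.exp 1 ≤ T) :
    Integrable (EE ψ g v T) := by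
  have hT0 : 0 < T := (Real.exp_pos 1).trans_le hTe
  have hL : 1 ≤ Real.log T := by rwa [Real.le_log_iff_exp_le hT0]
  have h1 := (Z_prodint (g := g) h0 h hL T).sub
    ((Q_prodint h0.sgn hi h hL T).const_mul (((Nat.factorial k : ℂ) ^ 2)⁻¹))
  refine h1.integral_prod_right.congr (Eventually.of_forall fun y => ?_)
  unfold EE
  rw [intervalIntegral.integral_of_le hT0.le, ← integral_const_mul]
  refine integral_congr_ae (Eventually.of_forall fun t => ?_)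
  simp only [Pi.sub_apply]
  rw [gl_LR]
  ring

lemma EE_eq {g v : Fin k ⊕ Fin k → ℝ} {π0 : Equiv.Perm (Fin k ⊕ Fin k)} (h0 : Good v π0)
    (hi : CI g v) {ξ1 : ℝ} {ψ : ℝ → ℂ} (h : TF ξ1 ψ) {c0 : ℝ} (hc0 : 0 < c0) (hc : c0 < 1 / 4)
    {T : ℝ} (hTe : Real.exp 1 ≤ T) :
    ∫ y, EE ψ g v T y = AZ ψ g v T - ((Nat.factorial k : ℂ) ^ 2)⁻¹ *
      ∑ π : Equiv.Perm (Fin k ⊕ Fin k), ∫ t in (0:ℝ)..T, JR ψ g v c0 (Real.log T) π t := by
  have hT0 : 0 < T := (Real.exp_pos 1).trans_le hTe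
  have hL : 1 ≤ Real.log T := by rwa [Real.le_log_iff_exp_le hT0]
  have hZ := Z_prodint (g := g) h0 h hL T
  have hQ := Q_prodint h0.sgn hi h hL T
  set c : ℂ := ((Nat.factorial k : ℂ) ^ 2)⁻¹ with hc'
  have hae : ∀ᵐ y : ℝ, EE ψ g v T y = (∫ t in Ioc 0 T, P ψ (Real.log T * y * I) * Zg (gl g v y) t) -
      c * ∫ t in Ioc 0 T, P ψ (Real.log T * y * I) * Qs t (LR g v (1 / 2 + y * I)) := by
    filter_upwards [hZ.prod_left_ae, hQ.prod_left_ae] with y h1 h2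
    unfold EE
    rw [intervalIntegral.integral_of_le hT0.le, ← integral_const_mul, ← integral_const_mul,
      ← integral_sub h1 (h2.const_mul c)]
    congr 1; funext t
    rw [gl_LR]
    ring
  rw [integral_congr_ae hae, integral_sub hZ.integral_prod_right (hQ.integral_prod_right.const_mul c),
    integral_const_mul, ← Q_swap h0.sgn hi h hc0 hc hL hT0.le]
  unfold AZ
  congr 1
  · congr 1; funext y
    rw [intervalIntegral.integral_of_le hT0.le, ← integral_const_mul]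
  · congr 2; funext y
    rw [intervalIntegral.integral_of_le hT0.le, ← integral_const_mul]

/-- the good terms -/
lemma good_O {g v : Fin k ⊕ Fin k → ℝ} {π : Equiv.Perm (Fin k ⊕ Fin k)} (hπ : Good v π)
    (hi : CI g v) {ξ1 : ℝ} {ψ : ℝ → ℂ} (h : TF ξ1 ψ) {c0 : ℝ} (hc0 : 0 < c0) (hc : c0 < 1 / 4)
    {κ : ℝ} (hκ : 0 < κ) {θ : ℝ} (hθ : 1 / 2 ≤ θ) (hθ2 : (ξ1 + 2 * mv v) * (1 / 2 + 4 * κ) < θ) :
    (fun T : ℝ => AZ ψ g v T - ∫ t in (0:ℝ)..T, JR ψ g v c0 (Real.log T) π t) =O[atTop]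
      fun T : ℝ => T ^ θ := by
  rw [← card_SL hπ] at hθ2
  obtain ⟨C1, T1, hC1, hT1, hz⟩ := Z_part h hκ (zz g π) (ww g π) (S := SL π) (S' := SR π)
    (m := (SL π).card) rfl (card_SL_SR π).symm hθ hθ2
  obtain ⟨C2, hC2, hq⟩ := Q_good hπ.sgn hi h hc0 hc hκ hπ hθ hθ2
  refine IsBigO.of_bound (C1 + C2) ?_
  filter_upwards [eventually_ge_atTop T1] with T hT
  have hTe : Real.exp 1 ≤ T := hT1.trans hT
  have hT0 : 0 < T := (Real.exp_pos 1).trans_le hTe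
  have h1 := hz T hT
  have h2 := hq T hTe
  have e1 : AZ ψ g v T = ∫ y : ℝ, P ψ (Real.log T * y * I) * (∫ t in (0:ℝ)..T,
        ZM (zz g π) (SL π) (1 / 2 + (y + t : ℝ) * I) * ZM (ww g π) (SR π) (1 / 2 + (y - t : ℝ) * I)) := by
    unfold AZ
    congr 1; funext y
    congr 1
    refine intervalIntegral.integral_congr fun t _ => ?_
    exact Zg_ZM hπ t y
  rw [← e1] at h1
  rw [Real.norm_of_nonneg (by positivity : 0 ≤ T ^ θ)]
  set Q := ∫ t in (1:ℝ)..T, Kd (SL π).card ((∑ j ∈ SL π, zz g π j) + ∑ j ∈ SR π, ww g π j) ψ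
          (zz g π) (ww g π) κ (Real.log T) t
  set B := ∫ t in (0:ℝ)..T, JR ψ g v c0 (Real.log T) π t
  calc ‖AZ ψ g v T - B‖ = ‖(AZ ψ g v T - Q) - (B - Q)‖ := by congr 1; ring
    _ ≤ ‖AZ ψ g v T - Q‖ + ‖B - Q‖ := norm_sub_le _ _
    _ ≤ _ := by rw [add_mul]; exact add_le_add h1 h2

/-- the bad terms -/
lemma bad_O {g v : Fin k ⊕ Fin k → ℝ} {π0 : Equiv.Perm (Fin k ⊕ Fin k)} (h0 : Good v π0)
    (hi : CI g v) {η : ℝ} {ψ : ℝ → ℂ} (h : TF (η - 2 * mv v) ψ) {c0 : ℝ} (hc0 : 0 < c0)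
    (hc : c0 < 1 / 4) {θ : ℝ} (hθ : 1 - (2 - η) * c0 ≤ θ) {π : Equiv.Perm (Fin k ⊕ Fin k)}
    (hπ : ¬ Good v π) :
    (fun T : ℝ => ∫ t in (0:ℝ)..T, JR ψ g v c0 (Real.log T) π t) =O[atTop] fun T : ℝ => T ^ θ := by
  obtain ⟨C, hC, hb⟩ := JR_bad h0.sgn hi h hc0 hc
  refine IsBigO.of_bound C ?_
  filter_upwards [eventually_ge_atTop (Real.exp 1)] with T hTe
  have hT0 : 0 < T := (Real.exp_pos 1).trans_le hTe
  have hT1 : 1 ≤ T := by have := Real.add_one_le_exp 1; linarith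
  have hL : 1 ≤ Real.log T := by rwa [Real.le_log_iff_exp_le hT0]
  have hm0 : (0:ℝ) ≤ mv v := Nat.cast_nonneg _
  have hmk : (mv v : ℝ) ≤ k := by
    have : mv v ≤ k := by
      rw [← card_SL h0]
      have := Finset.card_le_univ (SL π0)
      rwa [Fintype.card_fin] at this
    exact_mod_cast this
  have h1 := hb π (Real.log T) T (2 * (mv v : ℝ) - 2) hL hT1 (ee_bad h0 hπ) (by linarith) (by linarith)
  rw [Real.norm_of_nonneg (by positivity : 0 ≤ T ^ θ)]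
  refine h1.trans ?_
  rw [exp_rpow hT0, mul_assoc, ← Real.rpow_add hT0]
  refine mul_le_mul_of_nonneg_left ?_ hC
  refine Real.rpow_le_rpow_of_exponent_le hT1 ?_
  calc _ = 1 - (2 - η) * c0 := by ring
    _ ≤ θ := hθ

open Classical in
theorem main_O {g v : Fin k ⊕ Fin k → ℝ} {π0 : Equiv.Perm (Fin k ⊕ Fin k)} (h0 : Good v π0)
    (hi : CI g v) {η : ℝ} (hη0 : 0 ≤ η) (hη2 : η < 2) {ψ : ℝ → ℂ} (h : TF (η - 2 * mv v) ψ) {ε : ℝ}
    (hε : 0 < ε) :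
    (fun T : ℝ => ∫ y, EE ψ g v T y) =O[atTop] fun T : ℝ => T ^ (1 / 2 + η / 4 + ε) := by
  set θ : ℝ := 1 / 2 + η / 4 + ε with hθd
  set δ : ℝ := min (ε / 2) (1 / 8) with hδ
  have hδ0 : 0 < δ := by positivity
  have hδ1 : δ ≤ ε / 2 := min_le_left _ _
  have hδ2 : δ ≤ 1 / 8 := min_le_right _ _
  set c0 : ℝ := 1 / 4 - δ with hc0d
  have hc0 : 0 < c0 := by linarith
  have hc : c0 < 1 / 4 := by linarith
  have hκ : 0 < ε / 16 := by positivity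
  have hθ : 1 / 2 ≤ θ := by linarith
  have hθ2 : ((η - 2 * mv v) + 2 * mv v) * (1 / 2 + 4 * (ε / 16)) < θ := by
    have : ((η - 2 * (mv v : ℝ)) + 2 * mv v) * (1 / 2 + 4 * (ε / 16)) = η / 2 + η * ε / 4 := by ring
    rw [this]
    nlinarith
  have hθ3 : 1 - (2 - η) * c0 ≤ θ := by
    rw [hc0d]
    nlinarith
  have hgood : ∀ π ∈ Finset.univ.filter (Good v), (fun T : ℝ => AZ ψ g v T -
      ∫ t in (0:ℝ)..T, JR ψ g v c0 (Real.log T) π t) =O[atTop] fun T : ℝ => T ^ θ := fun π hπ =>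
    good_O (Finset.mem_filter.1 hπ).2 hi h hc0 hc hκ hθ hθ2
  have hbad : ∀ π ∈ Finset.univ.filter (fun π => ¬ Good v π), (fun T : ℝ =>
      ∫ t in (0:ℝ)..T, JR ψ g v c0 (Real.log T) π t) =O[atTop] fun T : ℝ => T ^ θ := fun π hπ =>
    bad_O h0 hi h hc0 hc hθ3 (Finset.mem_filter.1 hπ).2
  have h1 := (IsBigO.sum hgood).const_mul_left (((Nat.factorial k : ℂ) ^ 2)⁻¹)
  have h2 := (IsBigO.sum hbad).const_mul_left (((Nat.factorial k : ℂ) ^ 2)⁻¹)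
  refine (h1.sub h2).congr' ?_ EventuallyEq.rfl
  filter_upwards [eventually_ge_atTop (Real.exp 1)] with T hTe
  rw [EE_eq h0 hi h hc0 hc hTe]
  have e1 : ∑ π : Equiv.Perm (Fin k ⊕ Fin k), ∫ t in (0:ℝ)..T, JR ψ g v c0 (Real.log T) π t =
      (∑ π ∈ Finset.univ.filter (Good v), ∫ t in (0:ℝ)..T, JR ψ g v c0 (Real.log T) π t) +
      ∑ π ∈ Finset.univ.filter (fun π => ¬ Good v π), ∫ t in (0:ℝ)..T, JR ψ g v c0 (Real.log T) π t :=
    (Finset.sum_filter_add_sum_filter_not _ _ _).symm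
  rw [e1, Finset.sum_apply, Finset.sum_apply, Finset.sum_sub_distrib, Finset.sum_const, card_good h0,
    nsmul_eq_mul]
  have hf : (Nat.factorial k : ℂ) ≠ 0 := by exact_mod_cast (Nat.factorial_pos k).ne'
  push_cast
  field_simp
  ring

end

end Pool.Agent.TH612.CF
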