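import Pool.Agent.H27.G.R_seed8.TH612.CF.Bd

set_option autoImplicit false

/-! The average of the sum of the swap terms: shift of the line and the trivial bounds. -/

namespace Pool.Agent.TH612.CF

open Complex Filter Topology MeasureTheory Set Asymptotics
open Pool.Agent.W182.KO

noncomputable section

variable {k : ℕ}

lemma ee_abs {v : Fin k ⊕ Fin k → ℝ} (hv : Sgn v) (π : Equiv.Perm (Fin k ⊕ Fin k)) :
    |ee v π| ≤ 2 * k := by
  have h : ∀ f : Fin k → Fin k ⊕ Fin k, |∑ j : Fin k, v (f j)| ≤ k := by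
    intro f
    refine (Finset.abs_sum_le_sum_abs _ _).trans ?_
    simp [hv.abs]
  unfold ee
  have h1 := h fun j => π (Sum.inl j)
  have h2 := h Sum.inl
  have h3 : |(∑ j : Fin k, v (π (Sum.inl j))) - ∑ j : Fin k, v (Sum.inl j)| ≤
      |∑ j : Fin k, v (π (Sum.inl j))| + |∑ j : Fin k, v (Sum.inl j)| := abs_sub _ _
  linarith

lemma tpow_le {v : Fin k ⊕ Fin k → ℝ} (hv : Sgn v) (π : Equiv.Perm (Fin k ⊕ Fin k)) {t ρ : ℝ}
    (ht : 0 ≤ t) (hρ : |ρ| ≤ 1 / 4) : (1 + t) ^ (ee v π * ρ) ≤ (1 + t) ^ k := by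
  rw [← Real.rpow_natCast]
  refine Real.rpow_le_rpow_of_exponent_le (by linarith) ?_
  have h1 := ee_abs hv π
  have h2 : |ee v π * ρ| ≤ 2 * k * (1 / 4) := by
    rw [abs_mul]; gcongr
  have h3 := le_abs_self (ee v π * ρ)
  have h4 : (0:ℝ) ≤ k := Nat.cast_nonneg k
  linarith

/-- the number of permutations -/
def NP (k : ℕ) : ℝ := (Fintype.card (Equiv.Perm (Fin k ⊕ Fin k)) : ℝ)

lemma Qs_le_of {g v : Fin k ⊕ Fin k → ℝ} {t : ℝ} {s : ℂ} {A : ℝ}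
    (h : ∀ π, ‖Rt t (LR g v s) π‖ ≤ A) : ‖Qs t (LR g v s)‖ ≤ NP k * A := by
  unfold Qs NP
  refine (norm_sum_le_of_le _ fun π _ => h π).trans ?_
  rw [Finset.sum_const, Finset.card_univ, nsmul_eq_mul]

/-- polynomial bound for the sum of the swap terms far from the real axis -/
lemma Qs_far {g v : Fin k ⊕ Fin k → ℝ} (hv : Sgn v) (hi : CI g v) {c : ℝ} (hc : c < 1 / 4) :
    ∃ (K Y : ℝ) (B : ℕ), 1 ≤ K ∧ 0 < Y ∧ ∀ (s : ℂ) (t : ℝ), |s.re - 1 / 2| ≤ c → 0 ≤ t → Y ≤ |s.im| →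
      s ∉ SS g v ∧ ‖Qs t (LR g v s)‖ ≤ K * (1 + |s.im|) ^ B * (1 + t) ^ k := by
  obtain ⟨δ, Y, hδ, hY, hsep⟩ := sep_far (g := g) hv hi
  obtain ⟨K, B, hK, hb⟩ := Rt_bd (g := g) hv hc hδ
  have hN : (1:ℝ) ≤ NP k := by
    unfold NP
    exact_mod_cast Fintype.card_pos
  refine ⟨NP k * K, Y, B, by nlinarith, hY, fun s t hs ht hY' => ⟨?_, ?_⟩⟩
  · rintro ⟨p, q, hpq, hh⟩
    have := hsep s hY' p q (fun h => hpq (by rw [h]))
    rw [hh, sub_self, norm_zero] at this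
    linarith
  have hK0 : 0 ≤ K := by linarith
  refine (Qs_le_of (A := K * (1 + |s.im|) ^ B * (1 + t) ^ k) fun π => ?_).trans (le_of_eq (by ring))
  refine (hb π s t hs ht fun j l => hsep s hY' _ _ (inl_ne_inr π j l)).trans ?_
  have := tpow_le hv π ht (hs.trans hc.le)
  have h1 : 0 ≤ (1 + |s.im|) ^ B := by positivity
  gcongr

lemma line_null {g v : Fin k ⊕ Fin k → ℝ} (hv : Sgn v) :
    ∀ᵐ y : ℝ, ((1 / 2 : ℂ) + y * I) ∉ SS g v := by
  have hfin : {y : ℝ | ((1 / 2 : ℂ) + y * I) ∈ SS g v}.Finite := by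
    refine Set.Finite.preimage ?_ (SS_finite hv)
    intro a _ b _ h
    have := congrArg Complex.im h
    simpa using this
  have h0 := hfin.measure_zero volume
  rw [ae_iff]
  simpa using h0

lemma P_line {ξ1 : ℝ} {ψ : ℝ → ℂ} (h : TF ξ1 ψ) (B : ℕ) : ∃ CN : ℝ, 0 ≤ CN ∧ ∀ (L : ℝ) (s : ℂ), 1 ≤ L →
    1 / 2 ≤ s.re → ‖P ψ (L * (s - 1 / 2))‖ ≤
      CN * Real.exp (ξ1 * (L * (s.re - 1 / 2))) / (1 + |s.im|) ^ (2 + B) := by
  obtain ⟨CN, hCN, hP⟩ := P_bound h (2 + B)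
  refine ⟨CN, hCN, fun L s hL hs => ?_⟩
  have e0 : ((L:ℂ) * (s - 1 / 2)).re = L * (s.re - 1 / 2) := by simp
  have e1 : ((L:ℂ) * (s - 1 / 2)).im = L * s.im := by simp
  have h1 := P_bd_line (ψ := ψ) hP (z := (L:ℂ) * (s - 1 / 2)) (y := s.im)
    (by rw [e0]; exact mul_nonneg (by linarith) (by linarith)) (by
    rw [e1, abs_mul, abs_of_pos (by linarith : 0 < L)]
    exact le_mul_of_one_le_left (abs_nonneg _) hL)
  rwa [e0] at h1

/-- exact shift of the line for the sum of the swap terms -/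
theorem Q_shift {g v : Fin k ⊕ Fin k → ℝ} (hv : Sgn v) (hi : CI g v) {ξ1 : ℝ} {ψ : ℝ → ℂ}
    (h : TF ξ1 ψ) {c0 : ℝ} (hc0 : 0 < c0) (hc : c0 < 1 / 4) {L t : ℝ} (hL : 1 ≤ L) (ht : 0 ≤ t) :
    ∫ y : ℝ, P ψ (L * y * I) * Qs t (LR g v (1 / 2 + y * I)) =
      ∫ y : ℝ, P ψ ((L * c0 : ℝ) + L * y * I) * Qs t (LR g v ((1 / 2 + c0 : ℝ) + y * I)) := by
  obtain ⟨c, hcc, hc4⟩ := exists_between hc
  obtain ⟨F, hF, hFQ⟩ := Q_ext hv hi (hc0.trans hcc) hc4 ht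
  obtain ⟨K, Y, B, hK, hY, hfar⟩ := Qs_far (g := g) hv hi hc4
  have hbox : IsCompact (Icc (1 / 2) (1 / 2 + c0) ×ℂ Icc (-Y) Y) := isCompact_Icc.reProdIm isCompact_Icc
  have hsub : Icc (1 / 2) (1 / 2 + c0) ×ℂ Icc (-Y) Y ⊆ St c := by
    intro s hs
    rw [mem_reProdIm] at hs
    unfold St
    rw [mem_ofPred_eq, abs_lt]
    constructor <;> linarith [hs.1.1, hs.1.2]
  obtain ⟨C0, hC0⟩ := hbox.exists_bound_of_continuousOn (hF.continuousOn.mono hsub)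
  obtain ⟨CN, hCN, hP⟩ := P_line h B
  have hL0 : 0 < L := by linarith
  have hKt : 0 ≤ K * (1 + t) ^ k := by positivity
  set A : ℝ := |C0| + K * (1 + t) ^ k with hA
  have hA0 : 0 ≤ A := by have := abs_nonneg C0; linarith
  have hFb : ∀ s : ℂ, 1 / 2 ≤ s.re → s.re ≤ 1 / 2 + c0 → ‖F s‖ ≤ A * (1 + |s.im|) ^ B := by
    intro s h1 h2
    have h1B : (1:ℝ) ≤ (1 + |s.im|) ^ B := one_le_pow₀ (by have := abs_nonneg s.im; linarith)
    have habs : |s.re - 1 / 2| < c := by rw [abs_lt]; constructor <;> linarith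
    rcases le_total |s.im| Y with hY' | hY'
    · have h3 := hC0 s (by rw [mem_reProdIm]; exact ⟨⟨h1, h2⟩, abs_le.1 hY'⟩)
      calc _ ≤ C0 := h3
        _ ≤ A * 1 := by
            have := le_abs_self C0
            linarith
        _ ≤ _ := by gcongr
    · obtain ⟨hnS, h4⟩ := hfar s t habs.le ht hY'
      rw [← hFQ s ⟨habs, hnS⟩] at h4
      have hC := abs_nonneg C0
      calc _ ≤ K * (1 + |s.im|) ^ B * (1 + t) ^ k := h4
        _ = (K * (1 + t) ^ k) * (1 + |s.im|) ^ B := by ring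
        _ ≤ _ := by gcongr; linarith
  have hstrip : ∀ s : ℂ, 1 / 2 ≤ s.re → s.re ≤ 1 / 2 + c0 → s ∈ St c := by
    intro s h1 h2
    unfold St
    rw [mem_ofPred_eq, abs_lt]
    constructor <;> linarith
  set E : ℝ := Real.exp (|ξ1| * (L * c0)) with hE
  have key := strip_shift (f := fun s => P ψ (L * (s - 1 / 2)) * F s) (a := 1 / 2) (b := 1 / 2 + c0)
    (B := CN * E * A) (by linarith) (by positivity) (fun s h1 h2 => ?_) (fun s h1 h2 => ?_)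
  · have hl : ∫ y : ℝ, P ψ (L * y * I) * Qs t (LR g v (1 / 2 + y * I)) =
        ∫ y : ℝ, P ψ (L * ((((1 / 2 : ℝ) : ℂ) + y * I) - 1 / 2)) * F (((1 / 2 : ℝ) : ℂ) + y * I) := by
      refine integral_congr_ae ?_
      filter_upwards [line_null (g := g) hv] with y hy
      have e1 : (((1 / 2 : ℝ) : ℂ) + y * I) = 1 / 2 + y * I := by push_cast; ring
      rw [e1, hFQ _ ⟨hstrip _ (by simp) (by simp; linarith), hy⟩]
      congr 2
      ring
    have hr : ∫ y : ℝ, P ψ ((L * c0 : ℝ) + L * y * I) * Qs t (LR g v ((1 / 2 + c0 : ℝ) + y * I)) =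
        ∫ y : ℝ, P ψ (L * ((((1 / 2 + c0 : ℝ) : ℂ) + y * I) - 1 / 2)) *
          F (((1 / 2 + c0 : ℝ) : ℂ) + y * I) := by
      congr 1; funext y
      have hn : (((1 / 2 + c0 : ℝ) : ℂ) + y * I) ∉ SS g v := by
        intro hh
        have := (SS_re hv hh).1
        simp at this
        linarith
      rw [hFQ _ ⟨hstrip _ (by simp; linarith) (by simp), hn⟩]
      congr 2
      push_cast
      ring
    rw [hl, hr]
    exact key
  · have d1 : DifferentiableAt ℂ (fun s : ℂ => P ψ (L * (s - 1 / 2))) s :=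
      ((P_diff h) _).comp s (by fun_prop)
    exact d1.mul (hF.differentiableAt ((St_open c).mem_nhds (hstrip s h1 h2)))
  · have g1 := hP L s hL h1
    have g2 := hFb s h1 h2
    have g3 : Real.exp (ξ1 * (L * (s.re - 1 / 2))) ≤ E := by
      rw [hE]
      refine Real.exp_le_exp.2 ?_
      have h0 : 0 ≤ L * (s.re - 1 / 2) := mul_nonneg hL0.le (by linarith)
      calc ξ1 * (L * (s.re - 1 / 2)) ≤ |ξ1| * (L * (s.re - 1 / 2)) :=
            mul_le_mul_of_nonneg_right (le_abs_self _) h0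
        _ ≤ _ := by
            gcongr
            linarith
    rw [norm_mul]
    have hy : 0 < 1 + |s.im| := by positivity
    calc _ ≤ (CN * E / (1 + |s.im|) ^ (2 + B)) * (A * (1 + |s.im|) ^ B) := by
          have := g1.trans (by gcongr : CN * Real.exp (ξ1 * (L * (s.re - 1 / 2))) /
            (1 + |s.im|) ^ (2 + B) ≤ CN * E / (1 + |s.im|) ^ (2 + B))
          gcongr
      _ = _ := by rw [pow_add]; field_simp

/-- the integral of one swap term on the shifted line -/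
def JR (ψ : ℝ → ℂ) (g v : Fin k ⊕ Fin k → ℝ) (c0 L : ℝ) (π : Equiv.Perm (Fin k ⊕ Fin k)) (t : ℝ) : ℂ :=
  ∫ y : ℝ, P ψ ((L * c0 : ℝ) + L * y * I) * Rt t (LR g v ((1 / 2 + c0 : ℝ) + y * I)) π

lemma line_re (c0 y : ℝ) : (((1 / 2 + c0 : ℝ) : ℂ) + y * I).re = 1 / 2 + c0 := by simp

lemma line_im (c0 y : ℝ) : (((1 / 2 + c0 : ℝ) : ℂ) + y * I).im = y := by simp

lemma line_sub (L c0 y : ℝ) : (L:ℂ) * ((((1 / 2 + c0 : ℝ) : ℂ) + y * I) - 1 / 2) =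
    (L * c0 : ℝ) + L * y * I := by push_cast; ring

/-- pointwise bound on the shifted line -/
lemma JR_ptw {g v : Fin k ⊕ Fin k → ℝ} (hv : Sgn v) (hi : CI g v) {ξ1 : ℝ} {ψ : ℝ → ℂ}
    (h : TF ξ1 ψ) {c0 : ℝ} (hc0 : 0 < c0) (hc : c0 < 1 / 4) :
    ∃ C : ℝ, 0 ≤ C ∧ ∀ (π : Equiv.Perm (Fin k ⊕ Fin k)) (L t y : ℝ), 1 ≤ L → 0 ≤ t →
      ‖P ψ ((L * c0 : ℝ) + L * y * I) * Rt t (LR g v ((1 / 2 + c0 : ℝ) + y * I)) π‖ ≤
        (C * Real.exp (ξ1 * (L * c0)) * (1 + t) ^ (ee v π * c0)) / (1 + |y|) ^ (0 + 2) := by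
  obtain ⟨δ, hδ, hsep⟩ := sep_line (g := g) hv hi hc0
  obtain ⟨K, B, hK, hb⟩ := Rt_bd (g := g) hv hc hδ
  obtain ⟨CN, hCN, hP⟩ := P_line h B
  have hK0 : 0 ≤ K := by linarith
  refine ⟨CN * K, by positivity, fun π L t y hL ht => ?_⟩
  have hre : |(((1 / 2 + c0 : ℝ) : ℂ) + y * I).re - 1 / 2| = c0 := by
    rw [line_re, show (1 / 2 + c0 - 1 / 2 : ℝ) = c0 by ring, abs_of_pos hc0]
  have g1 := hP L (((1 / 2 + c0 : ℝ) : ℂ) + y * I) hL (by rw [line_re]; linarith)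
  have g2 := hb π (((1 / 2 + c0 : ℝ) : ℂ) + y * I) t hre.le ht
    (fun j l => hsep _ hre _ _ (inl_ne_inr π j l))
  rw [line_sub, line_re, line_im, show (1 / 2 + c0 - 1 / 2 : ℝ) = c0 by ring] at g1
  rw [line_re, line_im, show (1 / 2 + c0 - 1 / 2 : ℝ) = c0 by ring] at g2
  rw [norm_mul]
  have hy : 0 < 1 + |y| := by positivity
  calc _ ≤ (CN * Real.exp (ξ1 * (L * c0)) / (1 + |y|) ^ (2 + B)) *
        (K * (1 + |y|) ^ B * (1 + t) ^ (ee v π * c0)) := by gcongr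
    _ = _ := by rw [pow_add, zero_add]; field_simp

/-- joint continuity on the shifted line -/
lemma JR_joint {g v : Fin k ⊕ Fin k → ℝ} (hv : Sgn v) (hi : CI g v) {ξ1 : ℝ} {ψ : ℝ → ℂ}
    (h : TF ξ1 ψ) {c0 : ℝ} (hc0 : 0 < c0) (hc : c0 < 1 / 4) (L : ℝ) (π : Equiv.Perm (Fin k ⊕ Fin k)) :
    Continuous (fun p : ℝ × ℝ => P ψ ((L * c0 : ℝ) + L * p.2 * I) *
      Rt p.1 (LR g v ((1 / 2 + c0 : ℝ) + p.2 * I)) π) := by
  obtain ⟨c, hcc, hc4⟩ := exists_between hc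
  have hPc : Continuous (P ψ) := (P_diff h).continuous
  refine (hPc.comp (by fun_prop)).mul ?_
  rw [← continuousOn_univ]
  have hcont : ∀ i, Continuous (fun x : ℝ × ℝ => LR g v ((1 / 2 + c0 : ℝ) + x.2 * I) i) := by
    intro i
    simp only [LR_apply]
    fun_prop
  refine Rt_cont (T := fun x : ℝ × ℝ => x.1) (Γ := fun x => LR g v ((1 / 2 + c0 : ℝ) + x.2 * I))
    isOpen_univ hc4 (by fun_prop) (fun i => (hcont i).continuousOn) (fun x _ i => ?_) π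
    (fun x _ j l => ?_)
  · rw [LR_im_abs hv, line_re, show (1 / 2 + c0 - 1 / 2 : ℝ) = c0 by ring, abs_of_pos hc0]
    exact hcc.le
  · refine LR_inj hi (fun hh => ?_) (inl_ne_inr π j l)
    have := (SS_re hv hh).1
    rw [line_re] at this
    linarith

lemma tpow_le' {v : Fin k ⊕ Fin k → ℝ} (hv : Sgn v) (π : Equiv.Perm (Fin k ⊕ Fin k)) {t T ρ : ℝ}
    (ht : 0 ≤ t) (hT : t ≤ T) (hρ : |ρ| ≤ 1 / 4) : (1 + t) ^ (ee v π * ρ) ≤ (1 + T) ^ k := by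
  refine (tpow_le hv π ht hρ).trans ?_
  gcongr

lemma JR_prodint {g v : Fin k ⊕ Fin k → ℝ} (hv : Sgn v) (hi : CI g v) {ξ1 : ℝ} {ψ : ℝ → ℂ}
    (h : TF ξ1 ψ) {c0 : ℝ} (hc0 : 0 < c0) (hc : c0 < 1 / 4) {L : ℝ} (hL : 1 ≤ L)
    (π : Equiv.Perm (Fin k ⊕ Fin k)) (T : ℝ) :
    Integrable (fun p : ℝ × ℝ => P ψ ((L * c0 : ℝ) + L * p.2 * I) *
      Rt p.1 (LR g v ((1 / 2 + c0 : ℝ) + p.2 * I)) π) ((volume.restrict (Ioc 0 T)).prod volume) := by
  obtain ⟨C, hC, hb⟩ := JR_ptw hv hi h hc0 hc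
  refine prod_int (g := fun t y => P ψ ((L * c0 : ℝ) + L * y * I) *
      Rt t (LR g v ((1 / 2 + c0 : ℝ) + y * I)) π) (JR_joint hv hi h hc0 hc L π)
      (B := C * Real.exp (ξ1 * (L * c0)) * (1 + T) ^ k) ?_
  intro t ht y
  have hT0 : 0 ≤ T := ht.1.le.trans ht.2
  refine decay_le (n := 0) (B := C * Real.exp (ξ1 * (L * c0)) * (1 + T) ^ k)
    (by positivity) (g := fun y => P ψ ((L * c0 : ℝ) + L * y * I) *
      Rt t (LR g v ((1 / 2 + c0 : ℝ) + y * I)) π) (fun y => ?_) y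
  refine (hb π L t y hL ht.1.le).trans ?_
  have := tpow_le' hv π ht.1.le ht.2 (ρ := c0) (by rw [abs_of_pos hc0]; exact hc.le)
  gcongr

lemma JR_int {g v : Fin k ⊕ Fin k → ℝ} (hv : Sgn v) (hi : CI g v) {ξ1 : ℝ} {ψ : ℝ → ℂ}
    (h : TF ξ1 ψ) {c0 : ℝ} (hc0 : 0 < c0) (hc : c0 < 1 / 4) {L : ℝ} (hL : 1 ≤ L)
    (π : Equiv.Perm (Fin k ⊕ Fin k)) {T : ℝ} (hT : 0 ≤ T) :
    IntervalIntegrable (JR ψ g v c0 L π) volume 0 T := by
  rw [intervalIntegrable_iff_integrableOn_Ioc_of_le hT]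
  exact (JR_prodint hv hi h hc0 hc hL π T).integral_prod_left

lemma JR_cont1 {g v : Fin k ⊕ Fin k → ℝ} (hv : Sgn v) (hi : CI g v) {ξ1 : ℝ} {ψ : ℝ → ℂ}
    (h : TF ξ1 ψ) {c0 : ℝ} (hc0 : 0 < c0) (hc : c0 < 1 / 4) (L t : ℝ)
    (π : Equiv.Perm (Fin k ⊕ Fin k)) :
    Continuous (fun y : ℝ => P ψ ((L * c0 : ℝ) + L * y * I) *
      Rt t (LR g v ((1 / 2 + c0 : ℝ) + y * I)) π) :=
  Continuous.comp (g := fun p : ℝ × ℝ => P ψ ((L * c0 : ℝ) + L * p.2 * I) *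
      Rt p.1 (LR g v ((1 / 2 + c0 : ℝ) + p.2 * I)) π) (f := fun y : ℝ => (t, y))
    (JR_joint hv hi h hc0 hc L π) (by fun_prop)

/-- decomposition on the shifted line -/
theorem Q_split {g v : Fin k ⊕ Fin k → ℝ} (hv : Sgn v) (hi : CI g v) {ξ1 : ℝ} {ψ : ℝ → ℂ}
    (h : TF ξ1 ψ) {c0 : ℝ} (hc0 : 0 < c0) (hc : c0 < 1 / 4) {L t : ℝ} (hL : 1 ≤ L) (ht : 0 ≤ t) :
    ∫ y : ℝ, P ψ (L * y * I) * Qs t (LR g v (1 / 2 + y * I)) =
      ∑ π : Equiv.Perm (Fin k ⊕ Fin k), JR ψ g v c0 L π t := by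
  rw [Q_shift hv hi h hc0 hc hL ht]
  obtain ⟨C, hC, hb⟩ := JR_ptw hv hi h hc0 hc
  have hint : ∀ π : Equiv.Perm (Fin k ⊕ Fin k), Integrable (fun y : ℝ =>
      P ψ ((L * c0 : ℝ) + L * y * I) * Rt t (LR g v ((1 / 2 + c0 : ℝ) + y * I)) π) := fun π =>
    decay_integrable (n := 0) (JR_cont1 hv hi h hc0 hc L t π) (by positivity)
      (fun y => hb π L t y hL ht)
  have h2 := integral_finsetSum (Finset.univ : Finset (Equiv.Perm (Fin k ⊕ Fin k)))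
    (f := fun π (y : ℝ) => P ψ ((L * c0 : ℝ) + L * y * I) *
      Rt t (LR g v ((1 / 2 + c0 : ℝ) + y * I)) π) (fun π _ => hint π)
  unfold JR
  rw [← h2]
  congr 1; funext y
  unfold Qs
  rw [Finset.mul_sum]

/-- the terms with a smaller exponent -/
theorem JR_bad {g v : Fin k ⊕ Fin k → ℝ} (hv : Sgn v) (hi : CI g v) {ξ1 : ℝ} {ψ : ℝ → ℂ}
    (h : TF ξ1 ψ) {c0 : ℝ} (hc0 : 0 < c0) (hc : c0 < 1 / 4) :
    ∃ C : ℝ, 0 ≤ C ∧ ∀ (π : Equiv.Perm (Fin k ⊕ Fin k)) (L T m : ℝ), 1 ≤ L → 1 ≤ T → ee v π ≤ m →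
      -2 ≤ m → m ≤ 2 * k →
      ‖∫ t in (0:ℝ)..T, JR ψ g v c0 L π t‖ ≤ C * Real.exp (ξ1 * (L * c0)) * T ^ (1 + m * c0) := by
  obtain ⟨C, hC, hb⟩ := JR_ptw hv hi h hc0 hc
  have hJ := J2_nonneg
  refine ⟨C * J2 * (2 * 2 ^ (k + 1)), by positivity, fun π L T m hL hT hm hm2 hmk => ?_⟩
  have hT0 : 0 < T := by linarith
  have hptw : ∀ t : ℝ, 0 ≤ t → ‖JR ψ g v c0 L π t‖ ≤
      C * Real.exp (ξ1 * (L * c0)) * J2 * (1 + t) ^ (m * c0) := by
    intro t ht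
    unfold JR
    refine (norm_integral_decay (n := 0) (by positivity) (fun y => hb π L t y hL ht)).trans ?_
    have h1 : (1 + t) ^ (ee v π * c0) ≤ (1 + t) ^ (m * c0) :=
      Real.rpow_le_rpow_of_exponent_le (by linarith) (mul_le_mul_of_nonneg_right hm hc0.le)
    calc _ = C * Real.exp (ξ1 * (L * c0)) * J2 * (1 + t) ^ (ee v π * c0) := by ring
      _ ≤ _ := by gcongr
  have ha1 : -(1/2) ≤ m * c0 := by nlinarith
  have ha2 : m * c0 ≤ k := by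
    have : (0:ℝ) ≤ k := Nat.cast_nonneg k
    rcases le_total 0 m with h0 | h0 <;> nlinarith
  have hcontt : ContinuousOn (fun t : ℝ => C * Real.exp (ξ1 * (L * c0)) * J2 * (1 + t) ^ (m * c0))
      (Icc 0 T) := by
    refine continuousOn_const.mul (ContinuousOn.rpow_const (by fun_prop) fun t ht => Or.inl ?_)
    have := ht.1
    linarith
  have hint : IntervalIntegrable (fun t : ℝ => C * Real.exp (ξ1 * (L * c0)) * J2 * (1 + t) ^ (m * c0))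
      volume 0 T := by
    refine ContinuousOn.intervalIntegrable ?_
    rwa [uIcc_of_le hT0.le]
  refine (intervalIntegral.norm_integral_le_of_norm_le hT0.le (Eventually.of_forall fun t ht =>
    hptw t ht.1.le) hint).trans ?_
  rw [intervalIntegral.integral_const_mul]
  have e1 : ∫ t in (0:ℝ)..T, (1 + t) ^ (m * c0) = ((1 + T) ^ (m * c0 + 1) - 1) / (m * c0 + 1) := by
    have h2 := intervalIntegral.integral_comp_add_left (a := 0) (b := T)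
      (fun x : ℝ => x ^ (m * c0)) 1
    rw [h2, add_zero, integral_rpow (Or.inl (by linarith)), Real.one_rpow]
  rw [e1]
  have e2 : ((1 + T) ^ (m * c0 + 1) - 1) / (m * c0 + 1) ≤ 2 * 2 ^ (k + 1) * T ^ (1 + m * c0) := by
    have hp : 0 < m * c0 + 1 := by linarith
    rw [div_le_iff₀ hp]
    have h3 : (1 + T) ^ (m * c0 + 1) ≤ (2 * T) ^ (m * c0 + 1) :=
      Real.rpow_le_rpow (by linarith) (by linarith) hp.le
    have h4 : (2 * T) ^ (m * c0 + 1) = 2 ^ (m * c0 + 1) * T ^ (m * c0 + 1) :=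
      Real.mul_rpow (by norm_num) hT0.le
    have h5 : (2:ℝ) ^ (m * c0 + 1) ≤ 2 ^ (k + 1) := by
      rw [← Real.rpow_natCast 2 (k + 1)]
      refine Real.rpow_le_rpow_of_exponent_le (by norm_num) ?_
      push_cast
      linarith
    have h6 : 0 ≤ T ^ (m * c0 + 1) := by positivity
    have e3 : T ^ (1 + m * c0) = T ^ (m * c0 + 1) := by rw [add_comm]
    rw [e3]
    have h7 : (2:ℝ) ^ (m * c0 + 1) * T ^ (m * c0 + 1) ≤ 2 ^ (k + 1) * T ^ (m * c0 + 1) := by gcongr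
    have h8 : 0 ≤ (2:ℝ) ^ (k + 1) * T ^ (m * c0 + 1) := by positivity
    nlinarith
  calc _ ≤ C * Real.exp (ξ1 * (L * c0)) * J2 * (2 * 2 ^ (k + 1) * T ^ (1 + m * c0)) := by gcongr
    _ = _ := by ring

end

end Pool.Agent.TH612.CF
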