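import Pool.Agent.H27.G.R_seed8.TH612.CF.Res

set_option autoImplicit false

/-! Removing the singularities along a line. -/

namespace Pool.Agent.TH612.CF

open Complex Filter Topology MeasureTheory Set Asymptotics
open Pool.Agent.W182.KO

noncomputable section

/-- extension over finitely many removable singularities -/
theorem ext_fin {f : ℂ → ℂ} {V S : Set ℂ} (hV : IsOpen V) (hS : S.Finite)
    (hf : DifferentiableOn ℂ f (V \ S))
    (hr : ∀ s0 ∈ S, s0 ∈ V → Tendsto (fun s => (s - s0) * f s) (𝓝[≠] s0) (𝓝 0)) :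
    ∃ F : ℂ → ℂ, DifferentiableOn ℂ F V ∧ ∀ s ∈ V \ S, F s = f s := by
  classical
  refine ⟨fun s => if s ∈ S then limUnder (𝓝[≠] s) f else f s, ?_, fun s hs => if_neg hs.2⟩
  intro s0 hs0
  refine DifferentiableAt.differentiableWithinAt ?_
  by_cases h : s0 ∈ S
  · have hS' : (S \ {s0}).Finite := hS.subset sdiff_subset
    have hO : IsOpen (V ∩ (S \ {s0})ᶜ) := hV.inter hS'.isClosed.isOpen_compl
    have hmem : V ∩ (S \ {s0})ᶜ ∈ 𝓝 s0 := hO.mem_nhds ⟨hs0, fun h' => h'.2 rfl⟩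
    have hd : DifferentiableOn ℂ f ((V ∩ (S \ {s0})ᶜ) \ {s0}) := by
      refine hf.mono fun s hs => ⟨hs.1.1, fun h' => hs.1.2 ⟨h', hs.2⟩⟩
    have ho : (fun z => f z - f s0) =o[𝓝[≠] s0] fun z => (z - s0)⁻¹ := by
      have hne : ∀ᶠ z in 𝓝[≠] s0, (z - s0)⁻¹ = 0 → f z - f s0 = 0 := by
        filter_upwards [self_mem_nhdsWithin] with z hz h0
        rw [inv_eq_zero, sub_eq_zero] at h0
        exact absurd h0 hz
      rw [isLittleO_iff_tendsto' hne]
      have h1 : Tendsto (fun s : ℂ => (s - s0) * f s0) (𝓝[≠] s0) (𝓝 0) := by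
        have : Tendsto (fun s : ℂ => (s - s0) * f s0) (𝓝 s0) (𝓝 ((s0 - s0) * f s0)) :=
          Continuous.tendsto (by fun_prop) s0
        rw [sub_self, zero_mul] at this
        exact this.mono_left nhdsWithin_le_nhds
      have h2 := (hr s0 h hs0).sub h1
      rw [sub_zero] at h2
      refine h2.congr fun z => ?_
      rw [div_inv_eq_mul]
      ring
    have key := Complex.differentiableOn_update_limUnder_of_isLittleO hmem hd ho
    refine (key.differentiableAt hmem).congr_of_eventuallyEq ?_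
    filter_upwards [hmem] with s hs
    by_cases hss : s = s0
    · subst hss
      simp [h]
    · rw [Function.update_of_ne hss]
      have : s ∉ S := fun h' => hs.2 ⟨h', hss⟩
      simp [this]
  · have hO : IsOpen (V \ S) := hV.sdiff hS.isClosed
    have hmem : V \ S ∈ 𝓝 s0 := hO.mem_nhds ⟨hs0, h⟩
    refine (hf.differentiableAt hmem).congr_of_eventuallyEq ?_
    filter_upwards [hmem] with s hs
    exact if_neg hs.2

/-- an open box -/
def Bx (r Y : ℝ) : Set ℂ := Ioo (1 / 2 - r) (1 / 2 + r) ×ℂ Ioo (-Y) Y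

lemma Bx_frontier {r Y : ℝ} (hr : 0 < r) (hY : 0 < Y) {z : ℂ} (hz : z ∈ frontier (Bx r Y)) :
    |z.re - 1 / 2| ≤ r ∧ |z.im| ≤ Y ∧ (|z.re - 1 / 2| = r ∨ |z.im| = Y) := by
  unfold Bx at hz
  rw [Complex.frontier_reProdIm, closure_Ioo (by linarith), closure_Ioo (by linarith),
    frontier_Ioo (by linarith), frontier_Ioo (by linarith)] at hz
  rcases hz with hz | hz
  · rw [mem_reProdIm] at hz
    obtain ⟨⟨h1, h2⟩, h3⟩ := hz
    refine ⟨abs_le.2 ⟨by linarith, by linarith⟩, ?_, Or.inr ?_⟩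
    · rcases h3 with h3 | h3
      · rw [h3, abs_neg, abs_of_pos hY]
      · rw [mem_singleton_iff] at h3
        rw [h3, abs_of_pos hY]
    · rcases h3 with h3 | h3
      · rw [h3, abs_neg, abs_of_pos hY]
      · rw [mem_singleton_iff] at h3
        rw [h3, abs_of_pos hY]
  · rw [mem_reProdIm] at hz
    obtain ⟨h3, h1, h2⟩ := hz
    have h4 : |z.re - 1 / 2| = r := by
      rcases h3 with h3 | h3
      · rw [h3, show (1 / 2 - r - 1 / 2 : ℝ) = -r by ring, abs_neg, abs_of_pos hr]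
      · rw [mem_singleton_iff] at h3
        rw [h3, show (1 / 2 + r - 1 / 2 : ℝ) = r by ring, abs_of_pos hr]
    exact ⟨h4.le, abs_le.2 ⟨h1, h2⟩, Or.inl h4⟩

lemma Bx_bounded (r Y : ℝ) : Bornology.IsBounded (Bx r Y) :=
  (Metric.isBounded_Ioo _ _).reProdIm (Metric.isBounded_Ioo _ _)

/-- maximum principle with removable singularities -/
theorem max_fin {f : ℂ → ℂ} {S : Set ℂ} {r r' Y C : ℝ} (hr : 0 < r) (hrr : r < r') (hY : 0 < Y)
    (hS : S.Finite) (hf : DifferentiableOn ℂ f ({s : ℂ | |s.re - 1 / 2| < r'} \ S))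
    (hres : ∀ s0 ∈ S, s0 ∈ {s : ℂ | |s.re - 1 / 2| < r'} →
      Tendsto (fun s => (s - s0) * f s) (𝓝[≠] s0) (𝓝 0))
    (hb : ∀ s : ℂ, |s.re - 1 / 2| ≤ r → |s.im| ≤ Y → (|s.re - 1 / 2| = r ∨ |s.im| = Y) → s ∉ S ∧ ‖f s‖ ≤ C)
    {s : ℂ} (h1 : |s.re - 1 / 2| ≤ r) (h2 : |s.im| ≤ Y) (h3 : s ∉ S) : ‖f s‖ ≤ C := by
  have hV : IsOpen {s : ℂ | |s.re - 1 / 2| < r'} :=
    isOpen_lt (by fun_prop) continuous_const
  obtain ⟨F, hF, hFf⟩ := ext_fin hV hS hf hres
  have hsV : s ∈ {s : ℂ | |s.re - 1 / 2| < r'} := h1.trans_lt hrr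
  rw [← hFf s ⟨hsV, h3⟩]
  have hcl : closure (Bx r Y) = Icc (1 / 2 - r) (1 / 2 + r) ×ℂ Icc (-Y) Y := by
    unfold Bx
    rw [Complex.closure_reProdIm, closure_Ioo (by linarith), closure_Ioo (by linarith)]
  refine Complex.norm_le_of_forall_mem_frontier_norm_le (Bx_bounded r Y) ?_ (fun z hz => ?_) ?_
  · refine DifferentiableOn.diffContOnCl ?_
    rw [hcl]
    refine hF.mono fun z hz => ?_
    rw [mem_reProdIm] at hz
    have : |z.re - 1 / 2| ≤ r := abs_le.2 ⟨by linarith [hz.1.1], by linarith [hz.1.2]⟩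
    exact this.trans_lt hrr
  · obtain ⟨g1, g2, g3⟩ := Bx_frontier hr hY hz
    obtain ⟨g4, g5⟩ := hb z g1 g2 g3
    rw [hFf z ⟨g1.trans_lt hrr, g4⟩]
    exact g5
  · rw [hcl, mem_reProdIm]
    have := abs_le.1 h1
    exact ⟨⟨by linarith, by linarith⟩, abs_le.1 h2⟩

end

end Pool.Agent.TH612.CF
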