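import Pool.Agent.H27.G.R_seed8.TH612.CF.Sw

set_option autoImplicit false

/-! Cancellation of the poles of the swap terms. -/

namespace Pool.Agent.TH612.CF

open Complex Filter Topology MeasureTheory Set
open Pool.Agent.W182.KO

noncomputable section

variable {k : ℕ}

/-- a line of shifts -/
def Ln (g v : Fin k ⊕ Fin k → ℂ) (s : ℂ) : Fin k ⊕ Fin k → ℂ := fun i => g i - I * v i * (s - 1 / 2)

lemma Ln_cont (g v : Fin k ⊕ Fin k → ℂ) (i : Fin k ⊕ Fin k) : Continuous (fun s => Ln g v s i) := by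
  unfold Ln; fun_prop

lemma Ln_diff (g v : Fin k ⊕ Fin k → ℂ) (i : Fin k ⊕ Fin k) :
    Differentiable ℂ (fun s => Ln g v s i) := by
  unfold Ln; fun_prop

/-- the open set of `s` where all the shifts are in the tube -/
def US (g v : Fin k ⊕ Fin k → ℂ) (c : ℝ) : Set ℂ := {s | ∀ i, |(Ln g v s i).im| < c}

lemma US_open (g v : Fin k ⊕ Fin k → ℂ) (c : ℝ) : IsOpen (US g v c) := by
  have : US g v c = ⋂ i, {s | |(Ln g v s i).im| < c} := by
    ext s; simp [US]
  rw [this]
  refine isOpen_iInter_of_finite fun i => ?_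
  exact isOpen_lt (continuous_abs.comp (Complex.continuous_im.comp (Ln_cont g v i))) continuous_const

/-- the residue of a swap term -/
def Lr (t : ℝ) (γ v : Fin k ⊕ Fin k → ℂ) (π : Equiv.Perm (Fin k ⊕ Fin k)) (j0 l0 : Fin k) : ℂ :=
  GG t γ π * (FH (fun j => γ (π (Sum.inl j))) (fun j => γ (π (Sum.inr j))) *
    ∏ x ∈ Finset.univ.erase (j0, l0), riemannZeta (1 + I * γ (π (Sum.inl x.1)) - I * γ (π (Sum.inr x.2)))) *
  (v (π (Sum.inl j0)) - v (π (Sum.inr l0)))⁻¹

lemma res_one {g v : Fin k ⊕ Fin k → ℂ} {c : ℝ} (hc : c < 1 / 4) (t : ℝ) {s0 : ℂ}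
    (hs0 : s0 ∈ US g v c) (π : Equiv.Perm (Fin k ⊕ Fin k)) {j0 l0 : Fin k}
    (h0 : Ln g v s0 (π (Sum.inl j0)) = Ln g v s0 (π (Sum.inr l0)))
    (hv : v (π (Sum.inl j0)) ≠ v (π (Sum.inr l0)))
    (hoth : ∀ x : Fin k × Fin k, x ≠ (j0, l0) →
      Ln g v s0 (π (Sum.inl x.1)) ≠ Ln g v s0 (π (Sum.inr x.2))) :
    Tendsto (fun s => (s - s0) * Rt t (Ln g v s) π) (𝓝[≠] s0) (𝓝 (Lr t (Ln g v s0) v π j0 l0)) := by
  set w : ℂ := v (π (Sum.inl j0)) - v (π (Sum.inr l0)) with hw
  have hw0 : w ≠ 0 := sub_ne_zero.2 hv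
  have hU := US_open g v c
  have hmem := hU.mem_nhds hs0
  have hcT : ContinuousOn (fun _ : ℂ => t) (US g v c) := continuousOn_const
  have c1 : ContinuousAt (fun s => GG t (Ln g v s) π) s0 :=
    (GG_cont (T := fun _ => t) (Γ := Ln g v) hcT (fun i => (Ln_cont g v i).continuousOn)
      (fun s hs i => (hs i).trans (by linarith)) π).continuousAt hmem
  have c2 : ContinuousAt (fun s => FH (fun j => Ln g v s (π (Sum.inl j)))
      (fun j => Ln g v s (π (Sum.inr j)))) s0 :=
    (FH_cont hU hc (fun j => (Ln_cont g v _).continuousOn) (fun j => (Ln_cont g v _).continuousOn)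
      (fun s hs j => ⟨(hs _).le, (hs _).le⟩)).continuousAt hmem
  have c3 : ContinuousAt (fun s => ∏ x ∈ Finset.univ.erase (j0, l0),
      riemannZeta (1 + I * Ln g v s (π (Sum.inl x.1)) - I * Ln g v s (π (Sum.inr x.2)))) s0 := by
    refine tendsto_finsetProd _ fun x hx => ?_
    have hx' := hoth x (Finset.ne_of_mem_erase hx)
    have h1 := Ln_cont g v (π (Sum.inl x.1))
    have h2 := Ln_cont g v (π (Sum.inr x.2))
    exact ContinuousAt.comp (f := fun s => (1 + I * Ln g v s (π (Sum.inl x.1)) -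
      I * Ln g v s (π (Sum.inr x.2)))) (differentiableAt_riemannZeta (one_ne hx')).continuousAt
      (by fun_prop)
  have hlin : ∀ s, 1 + I * Ln g v s (π (Sum.inl j0)) - I * Ln g v s (π (Sum.inr l0)) =
      1 + w * (s - s0) := by
    intro s
    unfold Ln at h0 ⊢
    rw [hw]
    linear_combination I * h0 - (v (π (Sum.inl j0)) - v (π (Sum.inr l0))) * (s - s0) * I_sq
  have c4 : Tendsto (fun s => (s - s0) * riemannZeta (1 + w * (s - s0))) (𝓝[≠] s0) (𝓝 w⁻¹) := by
    have h1 : Tendsto (fun s : ℂ => 1 + w * (s - s0)) (𝓝[≠] s0) (𝓝[≠] 1) := by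
      rw [tendsto_nhdsWithin_iff]
      refine ⟨?_, ?_⟩
      · have : Tendsto (fun s : ℂ => 1 + w * (s - s0)) (𝓝 s0) (𝓝 (1 + w * (s0 - s0))) :=
          Continuous.tendsto (by fun_prop) s0
        rw [sub_self, mul_zero, add_zero] at this
        exact this.mono_left nhdsWithin_le_nhds
      · filter_upwards [self_mem_nhdsWithin] with s hs
        simp only [mem_compl_iff, mem_singleton_iff] at hs ⊢
        intro h2
        have h3 : w * (s - s0) = 0 := by linear_combination h2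
        rcases mul_eq_zero.1 h3 with h4 | h4
        · exact hw0 h4
        · exact hs (sub_eq_zero.1 h4)
    have h2 := (riemannZeta_residue_one.comp h1).mul_const w⁻¹
    rw [one_mul] at h2
    refine h2.congr fun s => ?_
    simp only [Function.comp]
    field_simp
    ring
  have key := (((c1.mul (c2.mul c3)).tendsto.mono_left nhdsWithin_le_nhds).mul c4 :
    Tendsto _ (𝓝[≠] s0) _)
  refine key.congr fun s => ?_
  unfold Rt zab
  have e : (∏ j, ∏ l, riemannZeta (1 + I * Ln g v s (π (Sum.inl j)) - I * Ln g v s (π (Sum.inr l)))) =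
      riemannZeta (1 + w * (s - s0)) * ∏ x ∈ Finset.univ.erase (j0, l0),
      riemannZeta (1 + I * Ln g v s (π (Sum.inl x.1)) - I * Ln g v s (π (Sum.inr x.2))) := by
    rw [← Fintype.prod_prod_type (f := fun x : Fin k × Fin k =>
      riemannZeta (1 + I * Ln g v s (π (Sum.inl x.1)) - I * Ln g v s (π (Sum.inr x.2)))),
      ← Finset.mul_prod_erase Finset.univ _ (Finset.mem_univ (j0, l0)), hlin]
  rw [e]
  simp only [Pi.mul_apply]
  ring

lemma res_same {g v : Fin k ⊕ Fin k → ℂ} {c : ℝ} (hc : c < 1 / 4) (t : ℝ) {s0 : ℂ}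
    (hs0 : s0 ∈ US g v c) (π : Equiv.Perm (Fin k ⊕ Fin k))
    (hcr : ∀ j l, Ln g v s0 (π (Sum.inl j)) ≠ Ln g v s0 (π (Sum.inr l))) :
    Tendsto (fun s => (s - s0) * Rt t (Ln g v s) π) (𝓝[≠] s0) (𝓝 0) := by
  set U : Set ℂ := US g v c ∩ ⋂ x : Fin k × Fin k,
    {s | Ln g v s (π (Sum.inl x.1)) ≠ Ln g v s (π (Sum.inr x.2))} with hUd
  have hU : IsOpen U := (US_open g v c).inter (isOpen_iInter_of_finite fun x =>
    isOpen_ne_fun (Ln_cont g v _) (Ln_cont g v _))
  have hs : s0 ∈ U := ⟨hs0, mem_iInter.2 fun x => hcr x.1 x.2⟩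
  have hcont : ContinuousAt (fun s => Rt t (Ln g v s) π) s0 :=
    (Rt_cont (T := fun _ => t) hU hc continuousOn_const (fun i => (Ln_cont g v i).continuousOn)
      (fun s hs i => (hs.1 i).le) π (fun s hs j l => mem_iInter.1 hs.2 (j, l))).continuousAt
      (hU.mem_nhds hs)
  have h1 : Tendsto (fun s : ℂ => s - s0) (𝓝[≠] s0) (𝓝 0) := by
    have : Tendsto (fun s : ℂ => s - s0) (𝓝 s0) (𝓝 (s0 - s0)) := Continuous.tendsto (by fun_prop) s0
    rw [sub_self] at this
    exact this.mono_left nhdsWithin_le_nhds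
  have h2 := h1.mul (hcont.tendsto.mono_left nhdsWithin_le_nhds)
  rw [zero_mul] at h2
  exact h2

lemma res_pair {g v : Fin k ⊕ Fin k → ℂ} {c : ℝ} (hc : c < 1 / 4) (t : ℝ) {s0 : ℂ}
    (hs0 : s0 ∈ US g v c) {p q : Fin k ⊕ Fin k} (hpq : Ln g v s0 p = Ln g v s0 q) (hv : v p ≠ v q)
    (hone : ∀ p' q', Ln g v s0 p' = Ln g v s0 q' → p' = q' ∨ (p' = p ∧ q' = q) ∨ (p' = q ∧ q' = p))
    (π : Equiv.Perm (Fin k ⊕ Fin k)) {j0 l0 : Fin k} (hp : π (Sum.inl j0) = p)
    (hq : π (Sum.inr l0) = q) :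
    Tendsto (fun s => (s - s0) * (Rt t (Ln g v s) π + Rt t (Ln g v s) (Equiv.swap p q * π)))
      (𝓝[≠] s0) (𝓝 0) := by
  have hLs : ∀ i, Ln g v s0 (Equiv.swap p q i) = Ln g v s0 i := by
    intro i
    rcases eq_or_ne i p with h | h
    · rw [h, Equiv.swap_apply_left, hpq]
    rcases eq_or_ne i q with h' | h'
    · rw [h', Equiv.swap_apply_right, hpq]
    · rw [Equiv.swap_apply_of_ne_of_ne h h']
  have hoth : ∀ x : Fin k × Fin k, x ≠ (j0, l0) →
      Ln g v s0 (π (Sum.inl x.1)) ≠ Ln g v s0 (π (Sum.inr x.2)) := by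
    intro x hx heq
    rcases hone _ _ heq with h | ⟨h1, h2⟩ | ⟨h1, h2⟩
    · have := π.injective h
      simp at this
    · rw [← hp] at h1
      rw [← hq] at h2
      have h3 := Sum.inl_injective (π.injective h1)
      have h4 := Sum.inr_injective (π.injective h2)
      exact hx (Prod.ext h3 h4)
    · rw [← hq] at h1
      have := π.injective h1
      simp at this
  have r1 := res_one hc t hs0 π (j0 := j0) (l0 := l0) (by rw [hp, hq]; exact hpq)
    (by rw [hp, hq]; exact hv) hoth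
  have hp' : (Equiv.swap p q * π) (Sum.inl j0) = q := by
    rw [Equiv.Perm.mul_apply, hp, Equiv.swap_apply_left]
  have hq' : (Equiv.swap p q * π) (Sum.inr l0) = p := by
    rw [Equiv.Perm.mul_apply, hq, Equiv.swap_apply_right]
  have r2 := res_one hc t hs0 (Equiv.swap p q * π) (j0 := j0) (l0 := l0)
    (by rw [hp', hq']; exact hpq.symm) (by rw [hp', hq']; exact hv.symm) (fun x hx => by
      rw [Equiv.Perm.mul_apply, Equiv.Perm.mul_apply, hLs, hLs]
      exact hoth x hx)
  have h3 := r1.add r2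
  have h4 : Lr t (Ln g v s0) v π j0 l0 + Lr t (Ln g v s0) v (Equiv.swap p q * π) j0 l0 = 0 := by
    unfold Lr
    rw [hp', hq', hp, hq]
    have him : ∀ i, |(Ln g v s0 i).im| < 1 / 2 := fun i => (hs0 i).trans (by linarith)
    rw [GG_eq t him, GG_eq t him]
    simp only [Equiv.Perm.mul_apply, hLs]
    have e : (v p - v q)⁻¹ + (v q - v p)⁻¹ = 0 := by
      rw [← neg_sub (v p) (v q), inv_neg]; ring
    linear_combination ((∏ j : Fin k, Xt t (Ln g v s0 (Sum.inl j))) *
      (∏ j : Fin k, (Xt t (Ln g v s0 (π (Sum.inl j))))⁻¹) *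
      (FH (fun j => Ln g v s0 (π (Sum.inl j))) (fun j => Ln g v s0 (π (Sum.inr j))) *
      ∏ x ∈ Finset.univ.erase (j0, l0), riemannZeta (1 + I * Ln g v s0 (π (Sum.inl x.1)) -
        I * Ln g v s0 (π (Sum.inr x.2))))) * e
  rw [h4] at h3
  refine h3.congr fun s => ?_
  ring

theorem res_zero {g v : Fin k ⊕ Fin k → ℂ} {c : ℝ} (hc : c < 1 / 4) (t : ℝ) {s0 : ℂ}
    (hs0 : s0 ∈ US g v c) {p q : Fin k ⊕ Fin k} (hpq : Ln g v s0 p = Ln g v s0 q) (hv : v p ≠ v q)
    (hone : ∀ p' q', Ln g v s0 p' = Ln g v s0 q' → p' = q' ∨ (p' = p ∧ q' = q) ∨ (p' = q ∧ q' = p)) :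
    Tendsto (fun s => (s - s0) * Qs t (Ln g v s)) (𝓝[≠] s0) (𝓝 0) := by
  have hpair : ∀ π : Equiv.Perm (Fin k ⊕ Fin k), Tendsto (fun s => (s - s0) *
      (Rt t (Ln g v s) π + Rt t (Ln g v s) (Equiv.swap p q * π))) (𝓝[≠] s0) (𝓝 0) := by
    intro π
    have hLs : ∀ i, Ln g v s0 (Equiv.swap p q i) = Ln g v s0 i := by
      intro i
      rcases eq_or_ne i p with h | h
      · rw [h, Equiv.swap_apply_left, hpq]
      rcases eq_or_ne i q with h' | h'
      · rw [h', Equiv.swap_apply_right, hpq]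
      · rw [Equiv.swap_apply_of_ne_of_ne h h']
    -- no cross coincidence
    have hsame : (∀ j l, ¬ (π (Sum.inl j) = p ∧ π (Sum.inr l) = q)) →
        (∀ j l, ¬ (π (Sum.inl j) = q ∧ π (Sum.inr l) = p)) →
        Tendsto (fun s => (s - s0) *
          (Rt t (Ln g v s) π + Rt t (Ln g v s) (Equiv.swap p q * π))) (𝓝[≠] s0) (𝓝 0) := by
      intro n1 n2
      have hcr : ∀ j l, Ln g v s0 (π (Sum.inl j)) ≠ Ln g v s0 (π (Sum.inr l)) := by
        intro j l heq
        rcases hone _ _ heq with h | h | h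
        · have := π.injective h
          simp at this
        · exact n1 j l h
        · exact n2 j l h
      have r1 := res_same hc t hs0 π hcr
      have r2 := res_same hc t hs0 (Equiv.swap p q * π) (fun j l => by
        rw [Equiv.Perm.mul_apply, Equiv.Perm.mul_apply, hLs, hLs]
        exact hcr j l)
      have r3 := r1.add r2
      rw [add_zero] at r3
      refine r3.congr fun s => ?_
      ring
    rcases hi : π.symm p with i | i
    · rcases hj : π.symm q with j | j
      · refine hsame (fun a b h => ?_) (fun a b h => ?_)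
        · have := h.2
          rw [← this, Equiv.symm_apply_apply] at hj
          simp at hj
        · have := h.2
          rw [← this, Equiv.symm_apply_apply] at hi
          simp at hi
      · exact res_pair hc t hs0 hpq hv hone π (by rw [← hi]; simp) (by rw [← hj]; simp)
    · rcases hj : π.symm q with j | j
      · have h := res_pair hc t hs0 (p := q) (q := p) hpq.symm hv.symm (fun p' q' h => by
          rcases hone p' q' h with h1 | h1 | h1
          · exact Or.inl h1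
          · exact Or.inr (Or.inr h1)
          · exact Or.inr (Or.inl h1)) π (j0 := j) (l0 := i) (by rw [← hj]; simp) (by rw [← hi]; simp)
        rw [Equiv.swap_comm]
        exact h
      · refine hsame (fun a b h => ?_) (fun a b h => ?_)
        · have := h.1
          rw [← this, Equiv.symm_apply_apply] at hi
          simp at hi
        · have := h.1
          rw [← this, Equiv.symm_apply_apply] at hj
          simp at hj
  have hsum : Tendsto (fun s => ∑ π : Equiv.Perm (Fin k ⊕ Fin k), (s - s0) *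
      (Rt t (Ln g v s) π + Rt t (Ln g v s) (Equiv.swap p q * π))) (𝓝[≠] s0)
      (𝓝 (∑ _π : Equiv.Perm (Fin k ⊕ Fin k), 0)) :=
    tendsto_finsetSum _ fun π _ => hpair π
  rw [Finset.sum_const_zero] at hsum
  have h2 := hsum.const_mul (1 / 2 : ℂ)
  rw [mul_zero] at h2
  refine h2.congr fun s => ?_
  have e : ∑ π : Equiv.Perm (Fin k ⊕ Fin k), Rt t (Ln g v s) (Equiv.swap p q * π) =
      ∑ π : Equiv.Perm (Fin k ⊕ Fin k), Rt t (Ln g v s) π :=
    Equiv.sum_comp (Equiv.mulLeft (Equiv.swap p q)) (fun π => Rt t (Ln g v s) π)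
  unfold Qs
  rw [← Finset.mul_sum, Finset.sum_add_distrib, e]
  ring

end

end Pool.Agent.TH612.CF
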