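import Pool.Agent.H27.G.R_seed8.TH612.CF.Md

set_option autoImplicit false

/-! The average of the product of zeta functions in terms of the diagonal model. -/

namespace Pool.Agent.TH612.CF

open Complex Filter Topology MeasureTheory Set
open scoped ContDiff
open Pool.Agent.W182.KO

noncomputable section

variable {k : ℕ}

lemma exp_rpow {T : ℝ} (hT : 0 < T) (a b : ℝ) : Real.exp (a * (Real.log T * b)) = T ^ (a * b) := by
  rw [Real.rpow_def_of_pos hT]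
  congr 1; ring

/-- the two zeta products on the line `c` -/
lemma K0_ZM {ψ : ℝ → ℂ} {κ : ℝ} (hκ : 0 < κ) (z w : Fin k → ℝ) (S S' : Finset (Fin k)) (L t : ℝ) :
    K0 ψ (ZM z S) (ZM w S') (1 + 4 * κ) L t = ∫ y : ℝ, Pc ψ κ L y *
      ((XS z S ((1 + 4 * κ : ℝ) + (y + t : ℝ) * I) * XS w S' ((1 + 4 * κ : ℝ) + (y - t : ℝ) * I)) *
      (ZP z ((1 + 4 * κ : ℝ) + (y + t : ℝ) * I) * ZP w ((1 + 4 * κ : ℝ) + (y - t : ℝ) * I))) := by
  have hne : ∀ (u x : ℝ), (((1 + 4 * κ : ℝ) : ℂ) + u * I) + x * I ≠ 1 := by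
    intro u x hh
    have := congrArg Complex.re hh
    simp at this
    linarith
  unfold K0
  congr 1; funext y
  rw [ZM_eq z S (by simp; linarith) (fun j => hne _ _), ZM_eq w S' (by simp; linarith) (fun j => hne _ _)]
  unfold Pc
  ring

lemma Kn_norm {ξ1 : ℝ} {ψ : ℝ → ℂ} (h : TF ξ1 ψ) {κ : ℝ} (hκ : 0 < κ) (m : ℕ) (Sm : ℝ) (z w : Fin k → ℝ) :
    ∃ C : ℝ, 0 ≤ C ∧ ∀ L t : ℝ, 1 ≤ L → 1 ≤ t →
      ‖Kn m Sm ψ z w κ L t‖ ≤ C * Real.exp (ξ1 * (L * (1 + 4 * κ - 1 / 2))) * t ^ (m * (1 + 8 * κ)) := by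
  obtain ⟨Cd, hCd, hd⟩ := Dp_le h hκ
  obtain ⟨D, hD, hd'⟩ := tau_ptw k hκ
  have hZz := ZP_norm_line z hκ hD (hd' z)
  have hZw := ZP_norm_line w hκ hD (hd' w)
  set Z : ℝ := D * ∑' n : ℕ, (n : ℝ) ^ (-(1 + 3 * κ)) with hZ
  have hZ0 : 0 ≤ Z := (norm_nonneg _).trans (hZz 0)
  refine ⟨Cd * (Z * Z), by positivity, fun L t hL ht => ?_⟩
  have ht0 : 0 < t := by linarith
  have hpi := Real.pi_gt_three
  have hb : ∀ y, ‖Pc ψ κ L y * (MM (1 + 4 * κ) m Sm y t *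
      (ZP z ((1 + 4 * κ : ℝ) + (y + t : ℝ) * I) * ZP w ((1 + 4 * κ : ℝ) + (y - t : ℝ) * I)))‖ ≤
      ‖Pc ψ κ L y‖ * (t ^ (m * (1 + 8 * κ)) * (Z * Z)) := by
    intro y
    rw [norm_mul, norm_mul, norm_mul, MM_norm _ _ _ ht0]
    have e3 : (m : ℝ) * (2 * (1 + 4 * κ) - 1) = m * (1 + 8 * κ) := by ring
    rw [e3]
    have h1 : (t / (2 * Real.pi)) ^ (m * (1 + 8 * κ)) ≤ t ^ (m * (1 + 8 * κ)) := by
      refine Real.rpow_le_rpow (by positivity) ?_ (by positivity)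
      rw [div_le_iff₀ (by positivity)]
      nlinarith
    have h2 := hZz (y + t)
    have h3 := hZw (y - t)
    gcongr
  unfold Kn
  refine (norm_integral_le_of_norm_le (((Pc_int h hκ hL).norm).mul_const _)
    (Eventually.of_forall hb)).trans ?_
  rw [integral_mul_const]
  have := hd L hL
  have e : ∫ y, ‖Pc ψ κ L y‖ = Dp ψ κ L := rfl
  rw [e]
  calc _ ≤ (Cd * Real.exp (ξ1 * (L * (1 + 4 * κ - 1 / 2)))) * (t ^ (m * (1 + 8 * κ)) * (Z * Z)) := by
        gcongr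
    _ = _ := by ring

/-- **Z-part** -/
theorem Z_part {ξ1 : ℝ} {ψ : ℝ → ℂ} (h : TF ξ1 ψ) {κ : ℝ} (hκ : 0 < κ) (z w : Fin k → ℝ)
    {S S' : Finset (Fin k)} {m : ℕ} (hS : S.card = m) (hS' : S'.card = m) {θ : ℝ} (hθ : 1 / 2 ≤ θ)
    (hθ2 : (ξ1 + 2 * m) * (1 / 2 + 4 * κ) < θ) :
    ∃ C T1 : ℝ, 0 ≤ C ∧ Real.exp 1 ≤ T1 ∧ ∀ T : ℝ, T1 ≤ T →
      ‖(∫ y : ℝ, P ψ (Real.log T * y * I) * (∫ t in (0:ℝ)..T,
        ZM z S (1 / 2 + (y + t : ℝ) * I) * ZM w S' (1 / 2 + (y - t : ℝ) * I))) -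
        ∫ t in (1:ℝ)..T, Kd m ((∑ j ∈ S, z j) + ∑ j ∈ S', w j) ψ z w κ (Real.log T) t‖ ≤ C * T ^ θ := by
  set Sm : ℝ := (∑ j ∈ S, z j) + ∑ j ∈ S', w j with hSm
  set a' : ℝ := (ξ1 + 2 * m) * (1 / 2 + 4 * κ) with ha'
  obtain ⟨X, hX0, hX⟩ := exists_TF h.cd h.cs
  obtain ⟨n0, hn0⟩ := exists_nat_ge (1 / (θ - a'))
  obtain ⟨M1, hM1⟩ := ZM_DQ hκ z
  obtain ⟨M2, hM2⟩ := ZM_DQ hκ w
  set M : ℕ := M1 + M2 + n0 with hM
  obtain ⟨C1, G1⟩ := hM1 S M (by omega) (max (RR z) (RR w)) (le_max_left _ _)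
  obtain ⟨C2, G2⟩ := hM2 S' M (by omega) (max (RR z) (RR w)) (le_max_right _ _)
  set R : ℝ := max (RR z) (RR w) with hR
  have hc : (1:ℝ) / 2 ≤ 1 + 4 * κ := by linarith
  obtain ⟨Ca, hCa, ha⟩ := I0_norm_le_q hX G1 G2
  -- the shift, with the left support bound
  obtain ⟨CN, hCN, hPN⟩ : ∃ CN : ℝ, 0 ≤ CN ∧ ∀ L U t : ℝ, 1 ≤ L → 1 ≤ U → 2 * R ≤ U → U ≤ t →
      ‖I0 ψ (ZM z S) (ZM w S') L t - K0 ψ (ZM z S) (ZM w S') (1 + 4 * κ) L t‖ ≤
        CN * (Real.exp (X * (L * (1 + 4 * κ - 1 / 2))) * (1 + t) ^ (2 * M)) /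
          U ^ (2 * (2 * M + 1) * (2 * M + 2 + ⌈X * (1 / 2 + 4 * κ)⌉₊)) :=
    shift_q hX hX0 G1 G2 hc _
  obtain ⟨Cm, hCm, hm⟩ := model_gen h hκ z w hS hS'
  obtain ⟨Ck, hCk, hk⟩ := Kn_norm h hκ m Sm z w
  obtain ⟨W, hW, hw⟩ := Kn_Kd m Sm h hκ z w
  obtain ⟨D, hD, hd'⟩ := tau_ptw k hκ
  have hZz := ZP_norm_line z hκ hD (hd' z)
  have hZw := ZP_norm_line w hκ hD (hd' w)
  set Z : ℝ := D * ∑' n : ℕ, (n : ℝ) ^ (-(1 + 3 * κ)) with hZ
  have hZ0 : 0 ≤ Z := (norm_nonneg _).trans (hZz 0)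
  set ε : ℝ := 1 / (2 * (2 * M + 1)) with hε
  have hε0 : 0 < ε := by positivity
  have hεθ : a' + ε ≤ θ := by
    have h1 : 0 < θ - a' := by linarith
    have h2 : ε ≤ θ - a' := by
      rw [hε, div_le_iff₀ (by positivity)]
      rw [div_le_iff₀ h1] at hn0
      have h3 : (n0 : ℝ) ≤ M := by exact_mod_cast (by omega : n0 ≤ M)
      nlinarith
    linarith
  refine ⟨Ca * 2 ^ (2 * M) + CN * 2 ^ (2 * M) + Cm * (Z * Z) / ε + Ck + W,
    max (Real.exp 1) ((max 1 (2 * R)) ^ (2 * (2 * M + 1))), by positivity, le_max_left _ _, ?_⟩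
  intro T hT
  have hTe : Real.exp 1 ≤ T := (le_max_left _ _).trans hT
  have hT1 : 1 ≤ T := by have := Real.add_one_le_exp 1; linarith
  have hT0 : 0 < T := by linarith
  have hL : 1 ≤ Real.log T := by rwa [Real.le_log_iff_exp_le hT0]
  rw [I0_swap_q h G1 G2 hL hT0.le]
  set L := Real.log T with hLd
  set U : ℝ := T ^ ε with hU
  have hUT : U ^ (2 * (2 * M + 1)) = T := by
    rw [hU, ← Real.rpow_natCast, ← Real.rpow_mul hT0.le]
    have : ε * ((2 * (2 * M + 1) : ℕ) : ℝ) = 1 := by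
      rw [hε]; push_cast; field_simp
    rw [this, Real.rpow_one]
  have hU1 : 1 ≤ U := Real.one_le_rpow hT1 hε0.le
  have hUR : max 1 (2 * R) ≤ U := by
    by_contra hlt
    push Not at hlt
    have h1 : U ^ (2 * (2 * M + 1)) < (max 1 (2 * R)) ^ (2 * (2 * M + 1)) :=
      pow_lt_pow_left₀ hlt (by linarith) (by omega)
    rw [hUT] at h1
    exact absurd ((le_max_right _ _).trans hT) (not_le.2 h1)
  have hUleT : U ≤ T := by
    rw [← hUT]; exact le_self_pow₀ hU1 (by omega)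
  have hR2 : 2 * R ≤ U := (le_max_right _ _).trans hUR
  have h1θ : 1 ≤ T ^ θ := Real.one_le_rpow hT1 (by linarith)
  have ha'θ : T ^ a' ≤ T ^ θ := Real.rpow_le_rpow_of_exponent_le hT1 (by linarith)
  have haU : U * T ^ a' ≤ T ^ θ := by
    rw [hU, ← Real.rpow_add hT0]
    exact Real.rpow_le_rpow_of_exponent_le hT1 (by linarith)
  have hUhalf : U ^ (2 * M + 1) ≤ T ^ θ := by
    have e1 : U ^ (2 * M + 1) = T ^ (1 / 2 : ℝ) := by
      rw [hU, ← Real.rpow_natCast, ← Real.rpow_mul hT0.le]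
      congr 1
      rw [hε]; push_cast; field_simp
    rw [e1]
    exact Real.rpow_le_rpow_of_exponent_le hT1 hθ
  have hEξ : Real.exp (ξ1 * (L * (1 + 4 * κ - 1 / 2))) = T ^ (ξ1 * (1 / 2 + 4 * κ)) := by
    rw [hLd, exp_rpow hT0]
    congr 1; ring
  have hEa : ∀ t : ℝ, 1 ≤ t → t ≤ T → T ^ (ξ1 * (1 / 2 + 4 * κ)) * t ^ (m * (1 + 8 * κ)) ≤ T ^ a' := by
    intro t h1 h2
    have h3 : t ^ (m * (1 + 8 * κ)) ≤ T ^ (m * (1 + 8 * κ)) :=
      Real.rpow_le_rpow (by linarith) h2 (by positivity)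
    calc _ ≤ T ^ (ξ1 * (1 / 2 + 4 * κ)) * T ^ (m * (1 + 8 * κ)) := by gcongr
      _ = T ^ a' := by
          rw [← Real.rpow_add hT0, ha']
          congr 1; ring
  have iI := I0_int_q h G1 G2 hL hT0.le
  have iI1 : IntervalIntegrable (I0 ψ (ZM z S) (ZM w S') L) volume 0 U :=
    iI.mono_set (by rw [uIcc_of_le (by linarith), uIcc_of_le hT0.le]; exact Icc_subset_Icc_right hUleT)
  have iI2 : IntervalIntegrable (I0 ψ (ZM z S) (ZM w S') L) volume U T :=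
    iI.mono_set (by rw [uIcc_of_le hUleT, uIcc_of_le hT0.le]; exact Icc_subset_Icc_left (by linarith))
  obtain ⟨iK, iD, hKD⟩ := hw T hTe
  rw [← hLd] at iK iD hKD
  have iK1 : IntervalIntegrable (Kn m Sm ψ z w κ L) volume 1 U :=
    iK.mono_set (by rw [uIcc_of_le hU1, uIcc_of_le hT1]; exact Icc_subset_Icc_right hUleT)
  have iK2 : IntervalIntegrable (Kn m Sm ψ z w κ L) volume U T :=
    iK.mono_set (by rw [uIcc_of_le hUleT, uIcc_of_le hT1]; exact Icc_subset_Icc_left hU1)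
  -- first piece
  have p1 : ‖∫ t in (0:ℝ)..U, I0 ψ (ZM z S) (ZM w S') L t‖ ≤ (Ca * 2 ^ (2 * M)) * T ^ θ := by
    have := intervalIntegral.norm_integral_le_of_norm_le_const (a := 0) (b := U)
      (f := I0 ψ (ZM z S) (ZM w S') L) (C := Ca * (2 * U) ^ (2 * M)) (fun t ht => by
        rw [uIoc_of_le (by linarith)] at ht
        refine (ha L t hL ht.1.le).trans ?_
        have := ht.1
        have := ht.2
        gcongr
        linarith)
    refine this.trans ?_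
    rw [sub_zero, abs_of_pos (by linarith)]
    calc Ca * (2 * U) ^ (2 * M) * U = (Ca * 2 ^ (2 * M)) * U ^ (2 * M + 1) := by
          rw [mul_pow, pow_succ]; ring
      _ ≤ _ := by gcongr
  -- the model near the origin
  have p2 : ‖∫ t in (1:ℝ)..U, Kn m Sm ψ z w κ L t‖ ≤ Ck * T ^ θ := by
    have := intervalIntegral.norm_integral_le_of_norm_le_const (a := 1) (b := U)
      (f := Kn m Sm ψ z w κ L) (C := Ck * T ^ a') (fun t ht => by
        rw [uIoc_of_le hU1] at ht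
        refine (hk L t hL ht.1.le).trans ?_
        rw [hEξ, mul_assoc]
        have := hEa t ht.1.le (ht.2.trans hUleT)
        gcongr)
    refine this.trans ?_
    rw [abs_of_nonneg (by linarith)]
    calc Ck * T ^ a' * (U - 1) ≤ Ck * T ^ a' * U := by
          gcongr; linarith
      _ = Ck * (U * T ^ a') := by ring
      _ ≤ _ := by gcongr
  -- the main piece
  have hUn : T ^ (2 * M + 2) * Real.exp (X * (L * (1 + 4 * κ - 1 / 2))) ≤
      U ^ (2 * (2 * M + 1) * (2 * M + 2 + ⌈X * (1 / 2 + 4 * κ)⌉₊)) := by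
    rw [pow_mul, hUT, pow_add T (2 * M + 2)]
    refine mul_le_mul_of_nonneg_left ?_ (pow_nonneg hT0.le _)
    have e1 : Real.exp (X * (L * (1 + 4 * κ - 1 / 2))) = T ^ (X * (1 / 2 + 4 * κ)) := by
      rw [hLd, exp_rpow hT0]
      congr 1; ring
    rw [e1, ← Real.rpow_natCast T ⌈_⌉₊]
    exact Real.rpow_le_rpow_of_exponent_le hT1 (Nat.le_ceil _)
  have hpt : ∀ t ∈ Ioc U T, ‖I0 ψ (ZM z S) (ZM w S') L t - Kn m Sm ψ z w κ L t‖ ≤
      CN * 2 ^ (2 * M) * (1 / T) + Cm * (Z * Z) * T ^ a' * (1 / t) := by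
    intro t ht
    have ht1 : 1 ≤ t := by linarith [ht.1]
    have ht0 : 0 < t := by linarith
    have g1 := hPN L U t hL hU1 hR2 ht.1.le
    have g2 := hm L t (Z * Z) (fun y => ZP z ((1 + 4 * κ : ℝ) + (y + t : ℝ) * I) *
      ZP w ((1 + 4 * κ : ℝ) + (y - t : ℝ) * I)) hL ht1 (by positivity) ?_ ?_
    · rw [← K0_ZM hκ z w S S' L t] at g2
      have e5 : (∫ y : ℝ, Pc ψ κ L y * (MM (1 + 4 * κ) m Sm y t *
          (ZP z ((1 + 4 * κ : ℝ) + (y + t : ℝ) * I) * ZP w ((1 + 4 * κ : ℝ) + (y - t : ℝ) * I)))) =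
          Kn m Sm ψ z w κ L t := rfl
      rw [← hSm, e5] at g2
      have g3 : CN * (Real.exp (X * (L * (1 + 4 * κ - 1 / 2))) * (1 + t) ^ (2 * M)) /
          U ^ (2 * (2 * M + 1) * (2 * M + 2 + ⌈X * (1 / 2 + 4 * κ)⌉₊)) ≤ CN * 2 ^ (2 * M) * (1 / T) := by
        have hUp : 0 < U ^ (2 * (2 * M + 1) * (2 * M + 2 + ⌈X * (1 / 2 + 4 * κ)⌉₊)) := by positivity
        rw [div_le_iff₀ hUp]
        have h5 : (1 + t) ^ (2 * M) ≤ (2 * T) ^ (2 * M) := by
          have := ht.2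
          gcongr
          linarith
        calc _ ≤ CN * (Real.exp (X * (L * (1 + 4 * κ - 1 / 2))) * (2 * T) ^ (2 * M)) := by gcongr
          _ = CN * 2 ^ (2 * M) * (1 / T) * ((T ^ (2 * M) * T) *
              Real.exp (X * (L * (1 + 4 * κ - 1 / 2)))) := by
              rw [mul_pow]; field_simp
          _ ≤ CN * 2 ^ (2 * M) * (1 / T) * (T ^ (2 * M + 2) *
              Real.exp (X * (L * (1 + 4 * κ - 1 / 2)))) := by
              have : T ^ (2 * M) * T ≤ T ^ (2 * M + 2) := by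
                rw [← pow_succ]
                exact pow_le_pow_right₀ hT1 (by omega)
              gcongr
          _ ≤ _ := by gcongr
      have g4 : Cm * (Z * Z) * Real.exp (ξ1 * (L * (1 + 4 * κ - 1 / 2))) * t ^ (m * (1 + 8 * κ) - 1) ≤
          Cm * (Z * Z) * T ^ a' * (1 / t) := by
        rw [hEξ]
        have h6 : t ^ (m * (1 + 8 * κ) - 1) = t ^ (m * (1 + 8 * κ)) * (1 / t) := by
          rw [Real.rpow_sub ht0, Real.rpow_one, div_eq_mul_one_div]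
        rw [h6]
        have h7 := hEa t ht1 ht.2
        calc _ = Cm * (Z * Z) * (T ^ (ξ1 * (1 / 2 + 4 * κ)) * t ^ (m * (1 + 8 * κ))) * (1 / t) := by ring
          _ ≤ _ := by gcongr
      have e6 : I0 ψ (ZM z S) (ZM w S') L t - Kn m Sm ψ z w κ L t =
          (I0 ψ (ZM z S) (ZM w S') L t - K0 ψ (ZM z S) (ZM w S') (1 + 4 * κ) L t) +
          (K0 ψ (ZM z S) (ZM w S') (1 + 4 * κ) L t - Kn m Sm ψ z w κ L t) := by ring
      rw [e6]
      exact (norm_add_le _ _).trans (add_le_add (g1.trans g3) (g2.trans g4))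
    · have hZPc : ∀ v : Fin k → ℝ, Continuous (fun u : ℝ => ZP v ((1 + 4 * κ : ℝ) + u * I)) := by
        intro v
        obtain ⟨C, G⟩ := ZP_DF v hκ hD (hd' v) (le_refl (2 * k)) (le_refl _)
        exact G.cline
      exact ((hZPc z).comp (by fun_prop : Continuous fun y : ℝ => y + t)).mul
        ((hZPc w).comp (by fun_prop : Continuous fun y : ℝ => y - t))
    · intro y
      rw [norm_mul]
      have h2 := hZz (y + t)
      have h3 := hZw (y - t)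
      gcongr
  have p3 : ‖∫ t in U..T, (I0 ψ (ZM z S) (ZM w S') L t - Kn m Sm ψ z w κ L t)‖ ≤
      (CN * 2 ^ (2 * M) + Cm * (Z * Z) / ε) * T ^ θ := by
    have hii : IntervalIntegrable (fun t : ℝ => CN * 2 ^ (2 * M) * (1 / T) +
        Cm * (Z * Z) * T ^ a' * (1 / t)) volume U T := by
      refine ContinuousOn.intervalIntegrable ?_
      rw [uIcc_of_le hUleT]
      refine continuousOn_const.add (continuousOn_const.mul
        (continuousOn_const.div continuousOn_id fun t ht => ?_))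
      exact (by linarith [ht.1] : (0:ℝ) < t).ne'
    refine (intervalIntegral.norm_integral_le_of_norm_le hUleT (Eventually.of_forall hpt) hii).trans ?_
    have hi1 : IntervalIntegrable (fun t : ℝ => Cm * (Z * Z) * T ^ a' * (1 / t)) volume U T := by
      refine ContinuousOn.intervalIntegrable ?_
      rw [uIcc_of_le hUleT]
      refine continuousOn_const.mul (continuousOn_const.div continuousOn_id fun t ht => ?_)
      exact (by linarith [ht.1] : (0:ℝ) < t).ne'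
    rw [intervalIntegral.integral_add (by simp) hi1, intervalIntegral.integral_const,
      intervalIntegral.integral_const_mul, integral_one_div_of_pos (by linarith) hT0, smul_eq_mul]
    have h8 : Real.log (T / U) ≤ T ^ ε / ε := by
      refine (Real.log_le_log (by positivity) (div_le_self hT0.le hU1)).trans ?_
      exact Real.log_le_rpow_div hT0.le hε0
    have h9 : (T - U) * (CN * 2 ^ (2 * M) * (1 / T)) ≤ CN * 2 ^ (2 * M) := by
      calc _ ≤ T * (CN * 2 ^ (2 * M) * (1 / T)) := by gcongr; linarith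
        _ = _ := by field_simp
    have h10 : Cm * (Z * Z) * T ^ a' * Real.log (T / U) ≤ Cm * (Z * Z) / ε * T ^ θ := by
      calc _ ≤ Cm * (Z * Z) * T ^ a' * (T ^ ε / ε) := by gcongr
        _ = Cm * (Z * Z) / ε * (U * T ^ a') := by rw [hU]; ring
        _ ≤ _ := by gcongr
    have h11 : CN * 2 ^ (2 * M) ≤ CN * 2 ^ (2 * M) * T ^ θ := le_mul_of_one_le_right (by positivity) h1θ
    calc _ ≤ CN * 2 ^ (2 * M) * T ^ θ + Cm * (Z * Z) / ε * T ^ θ := by linarith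
      _ = _ := by ring
  have p4 : W * T ^ ((ξ1 + 2 * m) * (1 / 2 + 4 * κ)) ≤ W * T ^ θ := by
    rw [← ha']; gcongr
  rw [intervalIntegral.integral_sub iI2 iK2] at p3
  rw [← intervalIntegral.integral_add_adjacent_intervals iI1 iI2]
  have e7 := intervalIntegral.integral_add_adjacent_intervals iK1 iK2
  set J1 := ∫ t in (0:ℝ)..U, I0 ψ (ZM z S) (ZM w S') L t
  set J2' := ∫ t in U..T, I0 ψ (ZM z S) (ZM w S') L t
  set N1 := ∫ t in (1:ℝ)..U, Kn m Sm ψ z w κ L t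
  set N2 := ∫ t in U..T, Kn m Sm ψ z w κ L t
  rw [← e7] at hKD
  set Q := ∫ t in (1:ℝ)..T, Kd m Sm ψ z w κ L t
  calc ‖J1 + J2' - Q‖ = ‖J1 + (J2' - N2) - N1 + (N1 + N2 - Q)‖ := by congr 1; ring
    _ ≤ ‖J1‖ + ‖J2' - N2‖ + ‖N1‖ + ‖N1 + N2 - Q‖ := by
        refine (norm_add_le _ _).trans (add_le_add ((norm_sub_le _ _).trans
          (add_le_add (norm_add_le _ _) le_rfl)) le_rfl)
    _ ≤ _ := by linarith [hKD.trans p4]

end

end Pool.Agent.TH612.CF
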